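import Pool.Agent.T9h97.RC.Sim

/-!
# Random choices and amplification
-/

set_option autoImplicit false

open Finset

namespace Pool.Agent.T9h97.RC

open Pool.Agent.N376.MP (adj cs adj_nonneg adj_le one_le_cs)

/-- Adjacency in `G` has a random representation by `N` real parameters of the one vertex and `Q`
threshold queries of the other vertex: for every `ω`, chosen with the probability `w ω`, the vertex
`x` has the parameters `a ω x i`, `i : J`, and the vertex `y` asks for every `l : L` whether the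
parameter of `x` with the index `j ω y l` is at most `b ω y l`, and applies the Boolean function
`Λ ω y` to the answers. Adjacent vertices are accepted with probability at least `2/3`, different
vertices which are not adjacent with probability at most `1/3`. -/
def ThrRep {V : Type} (G : SimpleGraph V) (N Q : ℕ) : Prop :=
  ∃ (Ω J L : Type) (_ : Fintype Ω) (_ : Fintype J) (_ : Fintype L) (w : Ω → ℝ)
    (a : Ω → V → J → ℝ) (j : Ω → V → L → J) (b : Ω → V → L → ℝ) (Λ : Ω → V → (L → Bool) → Bool),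
    Fintype.card J ≤ N ∧ Fintype.card L ≤ Q ∧ (∀ ω, 0 ≤ w ω) ∧ ∑ ω, w ω = 1 ∧
    (∀ x y, G.Adj x y →
      2 / 3 ≤ ∑ ω, if accepts (a ω) (j ω) (b ω) (Λ ω) x y = true then w ω else 0) ∧
    (∀ x y, x ≠ y → ¬ G.Adj x y →
      (∑ ω, if accepts (a ω) (j ω) (b ω) (Λ ω) x y = true then w ω else 0) ≤ 1 / 3)

variable {V : Type} [Fintype V] [DecidableEq V]

lemma prod_chi {t : ℕ} (w : Fin t → ℝ) (P : Fin t → Prop) :
    ∏ i, (w i * chi (P i)) = (∏ i, w i) * chi (∀ i, P i) := by
  rw [prod_mul_distrib]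
  congr 1
  by_cases h : ∀ i, P i
  · rw [chi_true h]
    exact prod_eq_one fun i _ => chi_true (h i)
  · rw [chi_false h]
    push Not at h
    obtain ⟨i, hi⟩ := h
    exact prod_eq_zero (mem_univ i) (chi_false hi)

omit [Fintype V] [DecidableEq V] in
lemma swap3 {ι : Type*} [Fintype ι] (U : Finset V) (F : V → V → ι → ℝ) :
    ∑ x ∈ U, ∑ y ∈ U, ∑ o, F x y o = ∑ o, ∑ x ∈ U, ∑ y ∈ U, F x y o := by
  have : ∀ x ∈ U, ∑ y ∈ U, ∑ o, F x y o = ∑ o, ∑ y ∈ U, F x y o := fun x _ => sum_comm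
  rw [sum_congr rfl this]
  exact sum_comm

/-- the one-way inequality for `t` independent random choices -/
theorem avg (G : SimpleGraph V) (r : ℕ) (hr : 2 ≤ r)
    (hG : (completeBipartiteGraph (Fin r) (Fin r)).Free G) (U : Finset V)
    {Ω K : Type} [Fintype Ω] [Fintype K] [DecidableEq K] (w : Ω → ℝ) (hw0 : ∀ ω, 0 ≤ w ω)
    (hw1 : ∑ ω, w ω = 1) (code : Ω → V → K) (S : Ω → K → V → Prop) (t : ℕ) :
    (∑ x ∈ U, ∑ y ∈ U, adj G x y * (∑ ω, w ω * chi (S ω (code ω x) y)) ^ t) ≤
      (2 * r : ℝ) ^ (1 / (r : ℝ)) * ((U.card : ℝ) ^ (1 / (r : ℝ)) *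
        (∑ x ∈ U, ∑ y ∈ U, (∑ ω, w ω * chi (S ω (code ω x) y)) ^ t) ^ (1 - 1 / (r : ℝ))) +
      cs r ^ (1 / (r : ℝ)) * (ed G U U ^ (1 / (r : ℝ)) *
        ((Fintype.card K : ℝ) ^ t * U.card) ^ (1 - 1 / (r : ℝ))) := by
  classical
  have hr0 : (2 : ℝ) ≤ r := by exact_mod_cast hr
  set θ : ℝ := 1 / (r : ℝ) with hθ
  have hθ0 : 0 < θ := by rw [hθ]; positivity
  have hθ1 : θ < 1 := by
    rw [hθ, div_lt_one (by linarith)]; linarith
  have hcs := one_le_cs r (by omega)
  set W : (Fin t → Ω) → ℝ := fun o => ∏ i, w (o i) with hW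
  have hW0 : ∀ o, 0 ≤ W o := fun o => prod_nonneg fun i _ => hw0 _
  have hW1 : ∑ o, W o = 1 := by
    have := Fintype.sum_pow w t
    rw [hw1, one_pow] at this
    exact this.symm
  have hpow : ∀ x y, (∑ ω, w ω * chi (S ω (code ω x) y)) ^ t =
      ∑ o : Fin t → Ω, W o * chi (∀ i, S (o i) (code (o i) x) y) := by
    intro x y
    rw [Fintype.sum_pow]
    apply sum_congr rfl; intro o _
    rw [prod_chi (fun i => w (o i)) (fun i => S (o i) (code (o i) x) y)]
  simp only [hpow]
  set s : (Fin t → Ω) → ℝ := fun o => ∑ x ∈ U, ∑ y ∈ U, chi (∀ i, S (o i) (code (o i) x) y)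
    with hs
  have hs0 : ∀ o, 0 ≤ s o := fun o => sum_nonneg fun _ _ => sum_nonneg fun _ _ => chi_nonneg _
  set T : ℝ := cs r ^ θ * (ed G U U ^ θ * ((Fintype.card K : ℝ) ^ t * U.card) ^ (1 - θ)) with hT
  have hone : ∀ o : Fin t → Ω, (∑ x ∈ U, ∑ y ∈ U, adj G x y *
      chi (∀ i, S (o i) (code (o i) x) y)) ≤
      (2 * r : ℝ) ^ θ * ((U.card : ℝ) ^ θ * s o ^ (1 - θ)) + T := by
    intro o
    have h := oneway G r hr hG U (K := Fin t → K) (fun x i => code (o i) x)
      (fun k y => ∀ i, S (o i) (k i) y)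
    have e1 : ∀ x y, (if (∀ i, S (o i) (code (o i) x) y) then adj G x y else 0) =
        adj G x y * chi (∀ i, S (o i) (code (o i) x) y) := by
      intro x y
      unfold chi
      split_ifs <;> simp
    have e2 : ∀ x y, (if (∀ i, S (o i) (code (o i) x) y) then (1 : ℝ) else 0) =
        chi (∀ i, S (o i) (code (o i) x) y) := by
      intro x y
      unfold chi
      split_ifs <;> simp
    simp only [e1, e2] at h
    have e3 : ((Fintype.card (Fin t → K) : ℕ) : ℝ) = (Fintype.card K : ℝ) ^ t := by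
      rw [Fintype.card_fun, Fintype.card_fin]; push_cast; rfl
    rw [e3] at h
    exact h
  have e4 : (∑ x ∈ U, ∑ y ∈ U, adj G x y *
      ∑ o : Fin t → Ω, W o * chi (∀ i, S (o i) (code (o i) x) y)) =
      ∑ o, W o * ∑ x ∈ U, ∑ y ∈ U, adj G x y * chi (∀ i, S (o i) (code (o i) x) y) := by
    simp only [mul_sum]
    rw [swap3]
    apply sum_congr rfl; intro o _
    apply sum_congr rfl; intro x _
    apply sum_congr rfl; intro y _
    ring
  have e5 : (∑ x ∈ U, ∑ y ∈ U,
      ∑ o : Fin t → Ω, W o * chi (∀ i, S (o i) (code (o i) x) y)) = ∑ o, W o * s o := by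
    rw [swap3]
    apply sum_congr rfl; intro o _
    rw [hs]
    simp only [mul_sum]
  rw [e4, e5]
  have hJ : ∑ o, W o * s o ^ (1 - θ) ≤ (∑ o, W o * s o) ^ (1 - θ) := by
    have := holder univ W (fun o => W o * s o) (fun o _ => hW0 o)
      (fun o _ => mul_nonneg (hW0 o) (hs0 o)) θ hθ0 hθ1
    rw [hW1, Real.one_rpow, one_mul] at this
    refine le_trans (le_of_eq ?_) this
    apply sum_congr rfl; intro o _
    rw [Real.mul_rpow (hW0 o) (hs0 o), ← mul_assoc,
      ← Real.rpow_add_of_nonneg (hW0 o) hθ0.le (by linarith), add_sub_cancel, Real.rpow_one]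
  calc ∑ o, W o * ∑ x ∈ U, ∑ y ∈ U, adj G x y * chi (∀ i, S (o i) (code (o i) x) y)
      ≤ ∑ o, W o * ((2 * r : ℝ) ^ θ * ((U.card : ℝ) ^ θ * s o ^ (1 - θ)) + T) :=
        sum_le_sum fun o _ => mul_le_mul_of_nonneg_left (hone o) (hW0 o)
    _ = (2 * r : ℝ) ^ θ * ((U.card : ℝ) ^ θ * ∑ o, W o * s o ^ (1 - θ)) + (∑ o, W o) * T := by
        rw [sum_mul, mul_sum, mul_sum, ← sum_add_distrib]
        apply sum_congr rfl; intro o _
        ring
    _ ≤ _ := by
        rw [hW1, one_mul]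
        gcongr

/-- the inequality for a random representation -/
theorem core (G : SimpleGraph V) (r : ℕ) (hr : 2 ≤ r)
    (hG : (completeBipartiteGraph (Fin r) (Fin r)).Free G) (U : Finset V) (N Q m t : ℕ)
    (hm : 1 ≤ m) (E0 : ℝ) (hE00 : 0 ≤ E0)
    (hE0 : ∀ X ⊆ U, ∀ Y ⊆ U, X.card + Y.card ≤ (U.card + m - 1) / m → ed G X Y ≤ E0)
    (hrep : ThrRep G N Q) (hf : 0 < ed G U U)
    (hbad : (N * Q * (m * (Q + 1)) : ℕ) * E0 ≤ ed G U U / 30) :
    (19 / 30 : ℝ) ^ t * ed G U U ≤
      (2 * r : ℝ) ^ (1 / (r : ℝ)) * ((U.card : ℝ) ^ (1 / (r : ℝ)) *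
        ((1 / 3 : ℝ) ^ t * (U.card : ℝ) ^ 2 + U.card + ed G U U) ^ (1 - 1 / (r : ℝ))) +
      cs r ^ (1 / (r : ℝ)) * (ed G U U ^ (1 / (r : ℝ)) *
        (((m * (Q + 1) : ℕ) : ℝ) ^ (N * t) * U.card) ^ (1 - 1 / (r : ℝ))) := by
  classical
  obtain ⟨Ω, J, L, _, _, _, w, a, j, b, Λ, hJ, hL, hw0, hw1, hyes, hno⟩ := hrep
  have hr0 : (2 : ℝ) ≤ r := by exact_mod_cast hr
  have hθ1 : 1 / (r : ℝ) ≤ 1 := by
    rw [div_le_one (by linarith)]; linarith
  have hcs := one_le_cs r (by omega)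
  have hsim := fun ω => simulate G U (a ω) (j ω) (b ω) (Λ ω) m Q hm hL E0 hE0
  obtain ⟨M, hM⟩ : ∃ M, M = m * (Q + 1) := ⟨_, rfl⟩
  rw [← hM] at hsim hbad ⊢
  choose code S hS1 hS2 using hsim
  have hM1 : 1 ≤ M := by rw [hM]; exact Nat.mul_pos hm (by omega)
  set p : V → V → ℝ := fun x y => ∑ ω, w ω * chi (S ω (code ω x) y) with hp
  set P : V → V → ℝ := fun x y => ∑ ω, w ω * chi (accepts (a ω) (j ω) (b ω) (Λ ω) x y = true)
    with hPdef
  have hPe : ∀ x y, (∑ ω, if accepts (a ω) (j ω) (b ω) (Λ ω) x y = true then w ω else 0) =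
      P x y := by
    intro x y
    rw [hPdef]
    apply sum_congr rfl; intro ω _
    unfold chi
    split_ifs <;> simp
  have hp0 : ∀ x y, 0 ≤ p x y := fun x y => sum_nonneg fun ω _ => mul_nonneg (hw0 ω) (chi_nonneg _)
  have hp1 : ∀ x y, p x y ≤ 1 := by
    intro x y
    rw [← hw1]
    exact sum_le_sum fun ω _ => mul_le_of_le_one_right (hw0 ω) (chi_le_one _)
  have hpP : ∀ x ∈ U, ∀ y ∈ U, p x y ≤ P x y := fun x hx y hy =>
    sum_le_sum fun ω _ => mul_le_mul_of_nonneg_left (chi_mono (hS1 ω x hx y hy)) (hw0 ω)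
  -- the sum of `p` over the edges
  have hlow : 19 / 30 * ed G U U ≤ ∑ x ∈ U, ∑ y ∈ U, adj G x y * p x y := by
    have h1 : ∀ x ∈ U, ∀ y ∈ U, 2 / 3 * adj G x y - ∑ ω, w ω *
        (chi (accepts (a ω) (j ω) (b ω) (Λ ω) x y = true ∧ ¬ S ω (code ω x) y) * adj G x y) ≤
        adj G x y * p x y := by
      intro x hx y hy
      have h2 : P x y - p x y ≤ ∑ ω, w ω *
          chi (accepts (a ω) (j ω) (b ω) (Λ ω) x y = true ∧ ¬ S ω (code ω x) y) := by
        rw [hPdef, hp]
        simp only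
        rw [← sum_sub_distrib]
        apply sum_le_sum; intro ω _
        rw [← mul_sub]
        apply mul_le_mul_of_nonneg_left _ (hw0 ω)
        by_cases hA : accepts (a ω) (j ω) (b ω) (Λ ω) x y = true
        · by_cases hB : S ω (code ω x) y
          · rw [chi_true hA, chi_true hB]
            have := chi_nonneg (accepts (a ω) (j ω) (b ω) (Λ ω) x y = true ∧ ¬ S ω (code ω x) y)
            linarith
          · rw [chi_true hA, chi_false hB, chi_true ⟨hA, hB⟩]
            linarith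
        · rw [chi_false hA]
          have h3 := chi_nonneg (accepts (a ω) (j ω) (b ω) (Λ ω) x y = true ∧ ¬ S ω (code ω x) y)
          have h4 := chi_nonneg (S ω (code ω x) y)
          linarith
      have h3 : 2 / 3 * adj G x y ≤ adj G x y * P x y := by
        by_cases hxy : G.Adj x y
        · have := hyes x y hxy
          rw [hPe] at this
          have h4 := adj_nonneg G x y
          nlinarith
        · have : adj G x y = 0 := by unfold Pool.Agent.N376.MP.adj; rw [if_neg hxy]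
          rw [this]; simp
      have h4 := mul_le_mul_of_nonneg_left h2 (adj_nonneg G x y)
      have h5 : ∑ ω, w ω * (chi (accepts (a ω) (j ω) (b ω) (Λ ω) x y = true ∧
          ¬ S ω (code ω x) y) * adj G x y) = adj G x y * ∑ ω, w ω *
          chi (accepts (a ω) (j ω) (b ω) (Λ ω) x y = true ∧ ¬ S ω (code ω x) y) := by
        rw [mul_sum]
        apply sum_congr rfl; intro ω _; ring
      rw [h5]
      linarith
    have h2 := sum_le_sum fun x hx => sum_le_sum fun y hy => h1 x hx y hy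
    refine le_trans ?_ h2
    simp only [sum_sub_distrib]
    rw [swap3]
    have h3 : ∑ x ∈ U, ∑ y ∈ U, 2 / 3 * adj G x y = 2 / 3 * ed G U U := by
      unfold ed
      simp only [mul_sum]
    rw [h3]
    have h4 : ∑ ω, ∑ x ∈ U, ∑ y ∈ U, w ω *
        (chi (accepts (a ω) (j ω) (b ω) (Λ ω) x y = true ∧ ¬ S ω (code ω x) y) * adj G x y) ≤
        ed G U U / 30 := by
      have h5 : ∀ ω, ∑ x ∈ U, ∑ y ∈ U, w ω *
          (chi (accepts (a ω) (j ω) (b ω) (Λ ω) x y = true ∧ ¬ S ω (code ω x) y) *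
            adj G x y) ≤ w ω * (ed G U U / 30) := by
        intro ω
        simp only [← mul_sum]
        apply mul_le_mul_of_nonneg_left _ (hw0 ω)
        refine (hS2 ω).trans (le_trans ?_ hbad)
        apply mul_le_mul_of_nonneg_right _ hE00
        exact_mod_cast Nat.mul_le_mul_right _ (Nat.mul_le_mul hJ hL)
      refine (sum_le_sum fun ω _ => h5 ω).trans (le_of_eq ?_)
      rw [← sum_mul, hw1, one_mul]
    linarith
  -- Jensen
  have hJen : (19 / 30 : ℝ) ^ t * ed G U U ≤ ∑ x ∈ U, ∑ y ∈ U, adj G x y * p x y ^ t := by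
    have h1 := Real.pow_arith_mean_le_arith_mean_pow (U ×ˢ U)
      (fun z => adj G z.1 z.2 / ed G U U) (fun z => p z.1 z.2)
      (fun z _ => div_nonneg (adj_nonneg G _ _) hf.le) (by
        rw [← sum_div, sum_product]
        exact div_self hf.ne') (fun z _ => hp0 _ _) t
    rw [sum_product, sum_product] at h1
    simp only [div_mul_eq_mul_div, ← sum_div] at h1
    rw [le_div_iff₀ hf] at h1
    refine le_trans ?_ h1
    apply mul_le_mul_of_nonneg_right _ hf.le
    apply pow_le_pow_left₀ (by norm_num)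
    rw [le_div_iff₀ hf]
    exact hlow
  -- all pairs
  have hall : ∑ x ∈ U, ∑ y ∈ U, p x y ^ t ≤
      (1 / 3 : ℝ) ^ t * (U.card : ℝ) ^ 2 + U.card + ed G U U := by
    have h1 : ∀ x ∈ U, ∀ y ∈ U, p x y ^ t ≤
        (1 / 3 : ℝ) ^ t + (if x = y then (1 : ℝ) else 0) + adj G x y := by
      intro x hx y hy
      have h3 : (0 : ℝ) ≤ (1 / 3 : ℝ) ^ t := by positivity
      have h4 := adj_nonneg G x y
      have h5 : p x y ^ t ≤ 1 := pow_le_one₀ (hp0 x y) (hp1 x y)
      by_cases hxy : x = y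
      · rw [if_pos hxy]; linarith
      · rw [if_neg hxy]
        by_cases hadj : G.Adj x y
        · have : adj G x y = 1 := by unfold Pool.Agent.N376.MP.adj; rw [if_pos hadj]
          rw [this]; linarith
        · have h6 := hno x y hxy hadj
          rw [hPe] at h6
          have h7 := pow_le_pow_left₀ (hp0 x y) ((hpP x hx y hy).trans h6) t
          linarith
    have h2 := sum_le_sum fun x hx => sum_le_sum fun y hy => h1 x hx y hy
    refine h2.trans (le_of_eq ?_)
    simp only [sum_add_distrib, sum_const, nsmul_eq_mul]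
    have h3 : ∑ x ∈ U, ∑ y ∈ U, (if x = y then (1 : ℝ) else 0) = U.card := by
      have : ∀ x ∈ U, ∑ y ∈ U, (if x = y then (1 : ℝ) else 0) = 1 := by
        intro x hx
        rw [sum_ite_eq, if_pos hx]
      rw [sum_congr rfl this]
      simp
    rw [h3]
    unfold ed
    ring
  have hav := avg G r hr hG U w hw0 hw1 code S t
  refine (hJen.trans hav).trans ?_
  have hcardK : ((Fintype.card (J → Fin M) : ℕ) : ℝ) ^ t ≤ ((M : ℕ) : ℝ) ^ (N * t) := by
    rw [Fintype.card_fun, Fintype.card_fin, pow_mul]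
    push_cast
    apply pow_le_pow_left₀ (by positivity)
    exact pow_le_pow_right₀ (by exact_mod_cast hM1) hJ
  have hall0 : 0 ≤ ∑ x ∈ U, ∑ y ∈ U, p x y ^ t :=
    sum_nonneg fun x _ => sum_nonneg fun y _ => pow_nonneg (hp0 x y) _
  have h1θ : 0 ≤ 1 - 1 / (r : ℝ) := by linarith
  apply add_le_add
  · apply mul_le_mul_of_nonneg_left _ (by positivity)
    apply mul_le_mul_of_nonneg_left _ (by positivity)
    exact Real.rpow_le_rpow hall0 hall h1θ
  · apply mul_le_mul_of_nonneg_left _ (Real.rpow_nonneg (by linarith) _)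
    apply mul_le_mul_of_nonneg_left _ (Real.rpow_nonneg hf.le _)
    apply Real.rpow_le_rpow (by positivity) _ h1θ
    exact mul_le_mul_of_nonneg_right hcardK (by positivity)

end Pool.Agent.T9h97.RC
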