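import Mathlib

/-!
# Cutting two families of numbers into common cells
-/

set_option autoImplicit false

open Finset

namespace Pool.Agent.T9h97.RC

variable {X Y : Type} [DecidableEq X] [DecidableEq Y]

/-- the first `m` elements of the two sets, in the common order of the values -/
lemma cut_at (a : X → ℝ) (b : Y → ℝ) (A : Finset X) (B : Finset Y) (m : ℕ)
    (hm : m ≤ A.card + B.card) :
    ∃ A₁ ⊆ A, ∃ B₁ ⊆ B, A₁.card + B₁.card = m ∧
      (∀ x ∈ A₁, ∀ y ∈ B \ B₁, a x ≤ b y) ∧ (∀ x ∈ A \ A₁, ∀ y ∈ B₁, b y < a x) := by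
  induction m with
  | zero =>
    exact ⟨∅, empty_subset _, ∅, empty_subset _, by simp, by simp, by simp⟩
  | succ m ih =>
    obtain ⟨X₁, hX, Y₁, hY, hc, h1, h2⟩ := ih (by omega)
    have hXc := card_sdiff_add_card_eq_card hX
    have hYc := card_sdiff_add_card_eq_card hY
    have addX : ∀ x₀ ∈ A \ X₁, (∀ y ∈ B \ Y₁, a x₀ ≤ b y) →
        ∃ X₁ ⊆ A, ∃ Y₁ ⊆ B, X₁.card + Y₁.card = m + 1 ∧
      (∀ x ∈ X₁, ∀ y ∈ B \ Y₁, a x ≤ b y) ∧ (∀ x ∈ A \ X₁, ∀ y ∈ Y₁, b y < a x) := by
      intro x₀ hx₀ h
      rw [mem_sdiff] at hx₀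
      refine ⟨insert x₀ X₁, insert_subset hx₀.1 hX, Y₁, hY, ?_, ?_, ?_⟩
      · rw [card_insert_of_notMem hx₀.2]; omega
      · intro x hx y hy
        rcases mem_insert.1 hx with rfl | hx
        · exact h y hy
        · exact h1 x hx y hy
      · intro x hx y hy
        rw [mem_sdiff, mem_insert, not_or] at hx
        exact h2 x (mem_sdiff.2 ⟨hx.1, hx.2.2⟩) y hy
    have addY : ∀ y₀ ∈ B \ Y₁, (∀ x ∈ A \ X₁, b y₀ < a x) →
        ∃ X₁ ⊆ A, ∃ Y₁ ⊆ B, X₁.card + Y₁.card = m + 1 ∧
      (∀ x ∈ X₁, ∀ y ∈ B \ Y₁, a x ≤ b y) ∧ (∀ x ∈ A \ X₁, ∀ y ∈ Y₁, b y < a x) := by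
      intro y₀ hy₀ h
      rw [mem_sdiff] at hy₀
      refine ⟨X₁, hX, insert y₀ Y₁, insert_subset hy₀.1 hY, ?_, ?_, ?_⟩
      · rw [card_insert_of_notMem hy₀.2]; omega
      · intro x hx y hy
        rw [mem_sdiff, mem_insert, not_or] at hy
        exact h1 x hx y (mem_sdiff.2 ⟨hy.1, hy.2.2⟩)
      · intro x hx y hy
        rcases mem_insert.1 hy with rfl | hy
        · exact h x hx
        · exact h2 x hx y hy
    rcases (A \ X₁).eq_empty_or_nonempty with hXe | hXn
    · have : (B \ Y₁).Nonempty := by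
        rw [← card_pos]
        rw [hXe, card_empty] at hXc
        omega
      obtain ⟨y₀, hy₀, -⟩ := exists_min_image (B \ Y₁) b this
      refine addY y₀ hy₀ ?_
      intro x hx
      rw [hXe] at hx
      exact absurd hx (notMem_empty _)
    · obtain ⟨x₀, hx₀, hx₀min⟩ := exists_min_image (A \ X₁) a hXn
      by_cases h : ∀ y ∈ B \ Y₁, a x₀ ≤ b y
      · exact addX x₀ hx₀ h
      · push Not at h
        obtain ⟨y, hy, hyx⟩ := h
        refine addY y hy ?_
        intro x hx
        exact lt_of_lt_of_le hyx (hx₀min x hx)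

/-- two families of numbers are cut into `M` cells with at most `len` elements -/
theorem cells (a : X → ℝ) (b : Y → ℝ) (len M : ℕ) : ∀ (A : Finset X) (B : Finset Y),
    A.card + B.card ≤ len * M →
    ∃ (α : X → ℕ) (β : Y → ℕ), (∀ x ∈ A, α x < M) ∧ (∀ y ∈ B, β y < M) ∧
      (∀ x ∈ A, ∀ y ∈ B, α x < β y → a x ≤ b y) ∧
      (∀ x ∈ A, ∀ y ∈ B, β y < α x → b y < a x) ∧
      ∀ h, (A.filter fun x => α x = h).card + (B.filter fun y => β y = h).card ≤ len := by
  induction M with
  | zero =>
    intro A B hAB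
    have hA : A = ∅ := by rw [← card_eq_zero]; omega
    have hB : B = ∅ := by rw [← card_eq_zero]; omega
    subst hA hB
    exact ⟨fun _ => 0, fun _ => 0, by simp, by simp, by simp, by simp, by simp⟩
  | succ M ih =>
    intro A B hAB
    obtain ⟨A₁, hA, B₁, hB, hc, h1, h2⟩ := cut_at a b A B (min len (A.card + B.card)) (min_le_right _ _)
    have hAc := card_sdiff_add_card_eq_card hA
    have hBc := card_sdiff_add_card_eq_card hB
    have hrest : (A \ A₁).card + (B \ B₁).card ≤ len * M := by
      rw [Nat.mul_succ] at hAB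
      rcases le_total len (A.card + B.card) with h | h
      · rw [min_eq_left h] at hc; omega
      · rw [min_eq_right h] at hc
        have : (A \ A₁).card + (B \ B₁).card = 0 := by omega
        rw [this]; exact Nat.zero_le _
    obtain ⟨α, β, hα, hβ, h3, h4, h5⟩ := ih (A \ A₁) (B \ B₁) hrest
    refine ⟨fun x => if x ∈ A₁ then 0 else α x + 1, fun y => if y ∈ B₁ then 0 else β y + 1,
      ?_, ?_, ?_, ?_, ?_⟩
    · intro x hx
      dsimp only
      split_ifs with h
      · omega
      · have := hα x (mem_sdiff.2 ⟨hx, h⟩); omega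
    · intro y hy
      dsimp only
      split_ifs with h
      · omega
      · have := hβ y (mem_sdiff.2 ⟨hy, h⟩); omega
    · intro x hx y hy hxy
      dsimp only at hxy
      split_ifs at hxy with hx' hy' hy'
      · omega
      · exact h1 x hx' y (mem_sdiff.2 ⟨hy, hy'⟩)
      · omega
      · exact h3 x (mem_sdiff.2 ⟨hx, hx'⟩) y (mem_sdiff.2 ⟨hy, hy'⟩) (by omega)
    · intro x hx y hy hxy
      dsimp only at hxy
      split_ifs at hxy with hy' hx' hx'
      · omega
      · exact h2 x (mem_sdiff.2 ⟨hx, hx'⟩) y hy'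
      · omega
      · exact h4 x (mem_sdiff.2 ⟨hx, hx'⟩) y (mem_sdiff.2 ⟨hy, hy'⟩) (by omega)
    · intro h
      rcases Nat.eq_zero_or_pos h with rfl | hpos
      · have e1 : (A.filter fun x => (if x ∈ A₁ then 0 else α x + 1) = 0) = A₁ := by
          ext x
          simp only [mem_filter]
          constructor
          · rintro ⟨_, h⟩
            by_contra hx
            rw [if_neg hx] at h; omega
          · intro hx
            exact ⟨hA hx, by rw [if_pos hx]⟩
        have e2 : (B.filter fun y => (if y ∈ B₁ then 0 else β y + 1) = 0) = B₁ := by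
          ext y
          simp only [mem_filter]
          constructor
          · rintro ⟨_, h⟩
            by_contra hy
            rw [if_neg hy] at h; omega
          · intro hy
            exact ⟨hB hy, by rw [if_pos hy]⟩
        rw [e1, e2, hc]
        exact min_le_left _ _
      · obtain ⟨h', rfl⟩ : ∃ h', h = h' + 1 := ⟨h - 1, by omega⟩
        have e1 : (A.filter fun x => (if x ∈ A₁ then 0 else α x + 1) = h' + 1) =
            (A \ A₁).filter fun x => α x = h' := by
          ext x
          simp only [mem_filter, mem_sdiff]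
          constructor
          · rintro ⟨hx, h⟩
            by_cases hx' : x ∈ A₁
            · rw [if_pos hx'] at h; omega
            · rw [if_neg hx'] at h
              exact ⟨⟨hx, hx'⟩, by omega⟩
          · rintro ⟨⟨hx, hx'⟩, h⟩
            exact ⟨hx, by rw [if_neg hx', h]⟩
        have e2 : (B.filter fun y => (if y ∈ B₁ then 0 else β y + 1) = h' + 1) =
            (B \ B₁).filter fun y => β y = h' := by
          ext y
          simp only [mem_filter, mem_sdiff]
          constructor
          · rintro ⟨hy, h⟩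
            by_cases hy' : y ∈ B₁
            · rw [if_pos hy'] at h; omega
            · rw [if_neg hy'] at h
              exact ⟨⟨hy, hy'⟩, by omega⟩
          · rintro ⟨⟨hy, hy'⟩, h⟩
            exact ⟨hy, by rw [if_neg hy', h]⟩
        rw [e1, e2]
        exact h5 h'

end Pool.Agent.T9h97.RC
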