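import Pool.Agent.T9h97.RC.Det

/-!
# Threshold circuits are protocols with comparisons
-/

set_option autoImplicit false

open Finset

namespace Pool.Agent.T9h97.RC

/-- Adjacency of two different vertices `x`, `y` is computed by a circuit with `s` linear threshold
gates: the vertices have real labels `φ`; the gate `i` has real weights `w i j` for the entries of
the label of `x`, `w' i j` for the entries of the label of `y` and `u i j` for the earlier gates
`j < i`, and the threshold `θ i`; the last gate is the output. -/
def ThresholdCircuit {V : Type} (G : SimpleGraph V) (s : ℕ) : Prop :=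
  ∃ (m : ℕ) (φ : V → Fin m → ℝ) (w w' : ℕ → Fin m → ℝ) (u : ℕ → ℕ → ℝ) (θ : ℕ → ℝ),
    ∀ x y, x ≠ y → ∃ g : ℕ → Bool,
      (∀ i < s, (g i = true ↔ θ i ≤ ∑ j, w i j * φ x j + ∑ j, w' i j * φ y j +
        ∑ j ∈ Finset.range i, if g j = true then u i j else 0)) ∧
      (G.Adj x y ↔ 0 < s ∧ g (s - 1) = true)

variable {V : Type}

/-- the protocol which evaluates the gates one after the other -/
noncomputable def build (a : ℕ → V → ℝ) (b : ℕ → V → (ℕ → Bool) → ℝ) (out : (ℕ → Bool) → Bool) :
    ℕ → ℕ → (ℕ → Bool) → Prot V
  | 0, _, h => Prot.ans (out h)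
  | f + 1, i, h => Prot.cmp (a i) (fun y => b i y h)
      (build a b out f (i + 1) (Function.update h i true))
      (build a b out f (i + 1) (Function.update h i false))

lemma build_cost (a : ℕ → V → ℝ) (b : ℕ → V → (ℕ → Bool) → ℝ) (out : (ℕ → Bool) → Bool)
    (f : ℕ) : ∀ i h, (build a b out f i h).bits = 0 ∧ (build a b out f i h).comps = f := by
  induction f with
  | zero => intro i h; exact ⟨rfl, rfl⟩
  | succ f ih =>
    intro i h
    have h1 := ih (i + 1) (Function.update h i true)
    have h2 := ih (i + 1) (Function.update h i false)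
    simp only [build, Prot.bits, Prot.comps]
    rw [h1.1, h2.1, h1.2, h2.2]
    simp

lemma build_out (a : ℕ → V → ℝ) (b : ℕ → V → (ℕ → Bool) → ℝ) (out : (ℕ → Bool) → Bool)
    (hb : ∀ i y h h', (∀ j < i, h j = h' j) → b i y h = b i y h') (x y : V) (g : ℕ → Bool)
    (s : ℕ) (hg : ∀ i < s, (g i = true ↔ a i x ≤ b i y g))
    (hout : ∀ h h', (∀ j < s, h j = h' j) → out h = out h') (f : ℕ) :
    ∀ i h, i + f = s → (∀ j < i, h j = g j) → (build a b out f i h).out x y = out g := by
  induction f with
  | zero =>
    intro i h hi hh
    simp only [build, Prot.out]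
    apply hout
    intro j hj
    exact hh j (by omega)
  | succ f ih =>
    intro i h hi hh
    simp only [build, Prot.out]
    rw [hb i y h g hh]
    by_cases hc : a i x ≤ b i y g
    · rw [if_pos hc]
      apply ih (i + 1) _ (by omega)
      intro j hj
      by_cases hji : j = i
      · subst hji
        rw [Function.update_self, (hg j (by omega)).2 hc]
      · rw [Function.update_of_ne hji]
        exact hh j (by omega)
    · rw [if_neg hc]
      apply ih (i + 1) _ (by omega)
      intro j hj
      by_cases hji : j = i
      · subst hji
        rw [Function.update_self]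
        cases hgj : g j with
        | false => rfl
        | true => exact absurd ((hg j (by omega)).1 hgj) hc
      · rw [Function.update_of_ne hji]
        exact hh j (by omega)

/-- circuits as protocols -/
lemma ThresholdCircuit.decides {G : SimpleGraph V} {s : ℕ} (h : ThresholdCircuit G s) :
    NDecides G 1 0 s := by
  obtain ⟨m, φ, w, w', u, θ, h⟩ := h
  refine ⟨fun _ => build (fun i x => - ∑ j, w i j * φ x j)
    (fun i y h => ∑ j, w' i j * φ y j + (∑ j ∈ Finset.range i, if h j = true then u i j else 0)
      - θ i) (fun h => decide (0 < s) && h (s - 1)) s 0 (fun _ => false), ?_, ?_⟩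
  · intro i
    have := build_cost (V := V) (fun i x => - ∑ j, w i j * φ x j)
      (fun i y h => ∑ j, w' i j * φ y j + (∑ j ∈ Finset.range i, if h j = true then u i j else 0)
      - θ i) (fun h => decide (0 < s) && h (s - 1)) s 0 (fun _ => false)
    exact ⟨this.1.le, this.2.le⟩
  · intro x y hxy
    obtain ⟨g, hg, hadj⟩ := h x y hxy
    have := build_out (V := V) (fun i x => - ∑ j, w i j * φ x j)
      (fun i y h => ∑ j, w' i j * φ y j + (∑ j ∈ Finset.range i, if h j = true then u i j else 0)
      - θ i) (fun h => decide (0 < s) && h (s - 1)) ?_ x y g s ?_ ?_ s 0 (fun _ => false)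
      (by omega) (by intro j hj; omega)
    · simp only [Fin.exists_fin_one]
      rw [this, hadj]
      simp
    · intro i y h h' hh
      congr 2
      apply sum_congr rfl
      intro j hj
      rw [hh j (Finset.mem_range.1 hj)]
    · intro i hi
      rw [hg i hi]
      constructor <;> intro h <;> linarith
    · intro h h' hh
      by_cases hs : 0 < s
      · simp only [hs, decide_true, Bool.true_and]
        exact hh _ (by omega)
      · simp [hs]

end Pool.Agent.T9h97.RC
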