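import Mathlib

/-!
# Protocols with bits and comparisons of real numbers
-/

set_option autoImplicit false

namespace Pool.Agent.T9h97.RC

/-- Protocols of two players; the first knows `x` and the second knows `y`. In a step the first
player may send a bit `f x` (`alice`), the second may send a bit `g y` (`bob`), or the two learn
whether `a x ≤ b y` (`cmp`); they go on with the first continuation if the bit is `true` or the
inequality holds, and with the second one otherwise. `ans v` is the end with the answer `v`. -/
inductive Prot (V : Type) : Type
  | ans (v : Bool) : Prot V
  | alice (f : V → Bool) (P Q : Prot V) : Prot V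
  | bob (g : V → Bool) (P Q : Prot V) : Prot V
  | cmp (a b : V → ℝ) (P Q : Prot V) : Prot V

namespace Prot

variable {V : Type}

/-- the answer on `x`, `y` -/
noncomputable def out : Prot V → V → V → Bool
  | ans v, _, _ => v
  | alice f P Q, x, y => if f x = true then P.out x y else Q.out x y
  | bob g P Q, x, y => if g y = true then P.out x y else Q.out x y
  | cmp a b P Q, x, y => if a x ≤ b y then P.out x y else Q.out x y

/-- the largest number of bits sent on a path -/
def bits : Prot V → ℕ
  | ans _ => 0
  | alice _ P Q => max P.bits Q.bits + 1
  | bob _ P Q => max P.bits Q.bits + 1
  | cmp _ _ P Q => max P.bits Q.bits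

/-- the largest number of comparisons on a path -/
def comps : Prot V → ℕ
  | ans _ => 0
  | alice _ P Q => max P.comps Q.comps
  | bob _ P Q => max P.comps Q.comps
  | cmp _ _ P Q => max P.comps Q.comps + 1

end Prot

end Pool.Agent.T9h97.RC
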