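import Pool.Agent.T9h97.RC.Split

/-!
# Deterministic and nondeterministic protocols for graphs without `K_{r,r}`
-/

set_option autoImplicit false

open Finset

namespace Pool.Agent.T9h97.RC

/-- `L` protocols, each of which sends at most `b` bits and makes at most `c` comparisons on every
path, such that two different vertices `x`, `y` are adjacent if and only if at least one of the
protocols accepts `x`, `y`. -/
def NDecides {V : Type} (G : SimpleGraph V) (L b c : ℕ) : Prop :=
  ∃ P : Fin L → Prot V, (∀ i, (P i).bits ≤ b ∧ (P i).comps ≤ c) ∧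
    ∀ x y, x ≠ y → (G.Adj x y ↔ ∃ i, (P i).out x y = true)

/-- a rectangle of adjacent pairs (up to equal pairs) is small -/
lemma rect_card {V : Type} [DecidableEq V] (G : SimpleGraph V) (r : ℕ)
    (hG : (completeBipartiteGraph (Fin r) (Fin r)).Free G) (A B : Finset V)
    (h : ∀ x ∈ A, ∀ y ∈ B, x ≠ y → G.Adj x y) :
    A.card * B.card ≤ r * (A.card + B.card) := by
  have key : ∀ A B : Finset V, (∀ x ∈ A, ∀ y ∈ B, x ≠ y → G.Adj x y) → r ≤ A.card →
      B.card < 2 * r := by
    intro A B h hA
    by_contra hB
    push Not at hB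
    obtain ⟨A', hA', hAc⟩ := exists_subset_card_eq hA
    have h1 : r ≤ (B \ A').card := by
      have := le_card_sdiff A' B
      omega
    obtain ⟨B', hB', hBc⟩ := exists_subset_card_eq h1
    apply hG
    rw [SimpleGraph.completeBipartiteGraph_isContained_iff]
    refine ⟨A', B', by simpa using hAc, by simpa using hBc, ?_⟩
    intro x hx y hy
    have hy' := mem_sdiff.1 (hB' hy)
    refine h x (hA' hx) y hy'.1 ?_
    rintro rfl
    exact hy'.2 hx
  by_cases hA : r ≤ A.card
  · by_cases hB : r ≤ B.card
    · have h1 := key A B h hA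
      have h2 := key B A (fun x hx y hy hxy => (h y hy x hx hxy.symm).symm) hB
      have h3 : A.card + B.card ≤ 4 * r := by omega
      nlinarith [sq_nonneg ((A.card : ℤ) - B.card), sq_nonneg ((A.card : ℤ) + B.card)]
    · push Not at hB
      calc A.card * B.card ≤ A.card * r := Nat.mul_le_mul_left _ hB.le
        _ ≤ r * (A.card + B.card) := by nlinarith
  · push Not at hA
    calc A.card * B.card ≤ r * B.card := Nat.mul_le_mul_right _ hA.le
      _ ≤ r * (A.card + B.card) := by nlinarith

/-- twice the number of edges -/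
lemma two_edges {V : Type} [Fintype V] (G : SimpleGraph V) :
    2 * (Nat.card G.edgeSet : ℝ) =
      ∑ x : V, ∑ y : V, (open Classical in if G.Adj x y then (1 : ℝ) else 0) := by
  classical
  have h := G.sum_degrees_eq_twice_card_edges
  have e : Nat.card G.edgeSet = G.edgeFinset.card := by
    rw [Nat.card_eq_fintype_card, SimpleGraph.edgeFinset_card]
  rw [e]
  have h2 : ((∑ v, G.degree v : ℕ) : ℝ) = 2 * (G.edgeFinset.card : ℝ) := by exact_mod_cast h
  rw [← h2]
  push_cast
  apply sum_congr rfl
  intro x _
  rw [← SimpleGraph.card_neighborFinset_eq_degree, sum_ite, sum_const_zero, add_zero, sum_const,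
    nsmul_eq_mul, mul_one]
  congr 2
  ext y
  simp

/-- the bound for nondeterministic protocols -/
theorem det_bound {V : Type} [Fintype V] (G : SimpleGraph V) (r L b c : ℕ)
    (hG : (completeBipartiteGraph (Fin r) (Fin r)).Free G) (hP : NDecides G L b c) :
    Nat.card G.edgeSet ≤ r * (L * 2 ^ b) *
      (Nat.clog 2 (Fintype.card V) + 1 + c).choose c * Fintype.card V := by
  classical
  obtain ⟨P, hbc, hP⟩ := hP
  set n := Fintype.card V with hn
  set k := Nat.clog 2 n + 1 with hk
  have hnk : n + n ≤ 2 ^ k := by
    have := Nat.le_pow_clog (b := 2) (by norm_num) n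
    rw [hk, pow_succ]; omega
  have h1 : 2 * (Nat.card G.edgeSet : ℝ) ≤ ∑ i, acc (fun _ _ => 1) (P i) univ univ := by
    rw [two_edges]
    have e : ∑ i, acc (fun _ _ => 1) (P i) univ univ =
        ∑ x : V, ∑ y : V, ∑ i, if (P i).out x y = true then (1 : ℝ) else 0 := by
      unfold acc
      rw [Finset.sum_comm]
      apply sum_congr rfl; intro x _
      rw [Finset.sum_comm]
    rw [e]
    apply sum_le_sum; intro x _
    apply sum_le_sum; intro y _
    by_cases hxy : G.Adj x y
    · rw [if_pos hxy]
      obtain ⟨i, hi⟩ := (hP x y hxy.ne).1 hxy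
      calc (1 : ℝ) = if (P i).out x y = true then (1 : ℝ) else 0 := by rw [if_pos hi]
        _ ≤ ∑ i, if (P i).out x y = true then (1 : ℝ) else 0 :=
          single_le_sum (f := fun i => if (P i).out x y = true then (1 : ℝ) else 0)
            (fun j _ => by split_ifs <;> norm_num) (mem_univ i)
    · rw [if_neg hxy]
      exact sum_nonneg fun j _ => by split_ifs <;> norm_num
  have h2 : ∀ i, acc (fun _ _ => 1) (P i) univ univ ≤
      (r : ℝ) * (2 ^ b * bin k c) * (n + n) := by
    intro i
    have hR : Rect (fun _ _ : V => (1 : ℝ)) (r : ℝ) (P i) univ univ := by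
      intro A _ B _ hacc
      simp only [sum_const, nsmul_eq_mul, mul_one]
      have := rect_card G r hG A B (fun x hx y hy hxy => (hP x y hxy).2 ⟨i, hacc x hx y hy⟩)
      exact_mod_cast this
    have := acc_le (fun _ _ => 1) (r : ℝ) (by positivity) (P i) k univ univ
      (by rw [card_univ]; exact hnk) hR
    rw [card_univ] at this
    refine this.trans ?_
    apply mul_le_mul_of_nonneg_right _ (by positivity)
    apply mul_le_mul_of_nonneg_left _ (by positivity)
    apply mul_le_mul
    · exact pow_le_pow_right₀ (by norm_num) (hbc i).1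
    · exact_mod_cast bin_mono (hbc i).2
    · positivity
    · positivity
  have h3 : 2 * (Nat.card G.edgeSet : ℝ) ≤ L * ((r : ℝ) * (2 ^ b * bin k c) * (n + n)) := by
    refine h1.trans ((sum_le_sum fun i _ => h2 i).trans ?_)
    simp
  have h4 : (Nat.card G.edgeSet : ℝ) ≤ (r * (L * 2 ^ b) * (k + c).choose c * n : ℕ) := by
    push_cast
    have : (bin k c : ℝ) = ((k + c).choose c : ℝ) := rfl
    rw [this] at h3
    linarith
  exact_mod_cast h4

/-- the binomial coefficient -/
lemma bin_le (k c : ℕ) (p : ℝ) (hp : 0 < p) :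
    ((k + c).choose c : ℝ) ≤ (1 + p) ^ k * ((1 + p) / p) ^ c := by
  have h := add_pow (1 : ℝ) p (k + c)
  have h1 : ((k + c).choose c : ℝ) * p ^ c ≤ (1 + p) ^ (k + c) := by
    rw [h]
    have := single_le_sum (f := fun m => (1 : ℝ) ^ m * p ^ (k + c - m) * ((k + c).choose m : ℝ))
      (s := range (k + c + 1)) (fun m _ => by positivity) (mem_range.2 (show k < k + c + 1 by omega))
    refine le_trans (le_of_eq ?_) this
    simp only [one_pow, one_mul, Nat.add_sub_cancel_left]
    rw [← Nat.choose_symm_of_eq_add (show k + c = k + c from rfl)]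
    ring
  rw [div_pow, ← mul_div_assoc, le_div_iff₀ (by positivity), ← pow_add]
  exact h1

end Pool.Agent.T9h97.RC
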