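import Pool.Agent.T9h97.RC.Circ

/-!
# Consequences for graphs of the order `n ^ (2 - 1 / r)`
-/

set_option autoImplicit false

open Finset

namespace Pool.Agent.T9h97.RC

lemma clog_le (n : ℕ) (hn : 1 ≤ n) : (Nat.clog 2 n : ℝ) ≤ Real.logb 2 n + 1 := by
  have h0 : 0 ≤ Real.logb 2 (n : ℝ) := Real.logb_nonneg (by norm_num) (by exact_mod_cast hn)
  have h := (Nat.ceil_lt_add_one h0).le
  have e : ⌈Real.logb 2 (n : ℝ)⌉₊ = Nat.clog 2 n := by
    have := Real.natCeil_logb_natCast 2 n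
    exact_mod_cast this
  rw [e] at h
  exact h

/-- powers of `1 + p` with a logarithmic exponent -/
lemma pow_clog (n : ℕ) (hn : 1 ≤ n) (p : ℝ) (hp : 0 < p) :
    (1 + p) ^ (Nat.clog 2 n + 1) ≤ (1 + p) ^ 2 * (n : ℝ) ^ Real.logb 2 (1 + p) := by
  have h1 : (1 : ℝ) ≤ 1 + p := by linarith
  have h0 : (0 : ℝ) < 1 + p := by linarith
  have hn0 : (0 : ℝ) < n := by exact_mod_cast hn
  rw [← Real.rpow_natCast]
  have h2 : (1 + p) ^ (((Nat.clog 2 n + 1 : ℕ) : ℝ)) ≤ (1 + p) ^ (2 + Real.logb 2 (n : ℝ)) := by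
    apply Real.rpow_le_rpow_of_exponent_le h1
    push_cast
    have := clog_le n hn
    linarith
  refine h2.trans (le_of_eq ?_)
  rw [Real.rpow_add h0]
  congr 1
  · exact_mod_cast Real.rpow_natCast (1 + p) 2
  · have e1 : (1 + p) = (2 : ℝ) ^ Real.logb 2 (1 + p) :=
      (Real.rpow_logb (by norm_num) (by norm_num) h0).symm
    have e2 : (n : ℝ) = (2 : ℝ) ^ Real.logb 2 (n : ℝ) :=
      (Real.rpow_logb (by norm_num) (by norm_num) hn0).symm
    calc (1 + p) ^ Real.logb 2 (n : ℝ) = ((2 : ℝ) ^ Real.logb 2 (1 + p)) ^ Real.logb 2 (n : ℝ) := by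
          rw [← e1]
      _ = ((2 : ℝ) ^ Real.logb 2 (n : ℝ)) ^ Real.logb 2 (1 + p) := by
          rw [← Real.rpow_mul (by norm_num), ← Real.rpow_mul (by norm_num), mul_comm]
      _ = _ := by rw [← e2]

/-- graphs of the order in the question -/
theorem det_order (r : ℕ) (c₀ p : ℝ) (hr : 1 ≤ r) (hp : 0 < p)
    (L b c : ℕ) {V : Type} [Fintype V] [Nonempty V] (G : SimpleGraph V)
    (hG : (completeBipartiteGraph (Fin r) (Fin r)).Free G) (hP : NDecides G L b c)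
    (hE : c₀ * (Fintype.card V : ℝ) ^ (2 - 1 / (r : ℝ)) ≤ Nat.card G.edgeSet) :
    c₀ * (Fintype.card V : ℝ) ^ (1 - 1 / (r : ℝ) - Real.logb 2 (1 + p)) ≤
      r * (1 + p) ^ 2 * (L * 2 ^ b) * ((1 + p) / p) ^ c := by
  set n := Fintype.card V with hn
  have hn1 : 1 ≤ n := Fintype.card_pos
  have hn0 : (0 : ℝ) < n := by exact_mod_cast hn1
  have h1 : (Nat.card G.edgeSet : ℝ) ≤ r * (L * 2 ^ b) * ((Nat.clog 2 n + 1 + c).choose c : ℝ) * n := by
    exact_mod_cast det_bound G r L b c hG hP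
  have h2 := bin_le (Nat.clog 2 n + 1) c p hp
  have h3 := pow_clog n hn1 p hp
  have h4 : ((Nat.clog 2 n + 1 + c).choose c : ℝ) ≤
      (1 + p) ^ 2 * (n : ℝ) ^ Real.logb 2 (1 + p) * ((1 + p) / p) ^ c :=
    h2.trans (mul_le_mul_of_nonneg_right h3 (by positivity))
  have h5 : c₀ * (n : ℝ) ^ (2 - 1 / (r : ℝ)) ≤ (r * (1 + p) ^ 2 * (L * 2 ^ b) * ((1 + p) / p) ^ c) *
      ((n : ℝ) ^ Real.logb 2 (1 + p) * n) := by
    refine hE.trans (h1.trans ?_)
    calc (r : ℝ) * (L * 2 ^ b) * ((Nat.clog 2 n + 1 + c).choose c : ℝ) * n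
        ≤ (r : ℝ) * (L * 2 ^ b) *
          ((1 + p) ^ 2 * (n : ℝ) ^ Real.logb 2 (1 + p) * ((1 + p) / p) ^ c) * n := by
          gcongr
      _ = _ := by ring
  have e : (n : ℝ) ^ (2 - 1 / (r : ℝ)) = (n : ℝ) ^ (1 - 1 / (r : ℝ) - Real.logb 2 (1 + p)) *
      ((n : ℝ) ^ Real.logb 2 (1 + p) * n) := by
    conv_rhs => rw [← Real.rpow_one (n : ℝ)]
    rw [Real.rpow_one, ← Real.rpow_add_one hn0.ne', ← Real.rpow_add hn0]
    congr 1; ring
  rw [e, ← mul_assoc] at h5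
  exact le_of_mul_le_mul_right h5 (by positivity)

lemma logb_87 : Real.logb 2 (1 + 1 / 7) ≤ 0.195 := by
  have h : (1 + 1 / 7 : ℝ) ^ 36 ≤ 2 ^ 7 := by norm_num
  have h2 : Real.logb 2 ((1 + 1 / 7 : ℝ) ^ 36) ≤ Real.logb 2 (2 ^ 7) :=
    Real.logb_le_logb_of_le (by norm_num) (by norm_num) h
  rw [Real.logb_pow, Real.logb_pow, Real.logb_self_eq_one (by norm_num)] at h2
  norm_num at h2 ⊢
  linarith

/-- logarithmically many comparisons or bits -/
theorem det_large (r : ℕ) (c₀ : ℝ) (hr : 2 ≤ r) (hc₀ : 0 < c₀) :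
    ∃ n₀ : ℕ, ∀ (L b c : ℕ) (V : Type) [Fintype V] (G : SimpleGraph V), n₀ ≤ Fintype.card V →
      (completeBipartiteGraph (Fin r) (Fin r)).Free G → NDecides G L b c →
      c₀ * (Fintype.card V : ℝ) ^ (2 - 1 / (r : ℝ)) ≤ Nat.card G.edgeSet →
      3 / 10 * Real.logb 2 (Fintype.card V) ≤ Real.logb 2 L + b + 3 * c := by
  have hr0 : (2 : ℝ) ≤ r := by exact_mod_cast hr
  set K : ℝ := r * (1 + 1 / 7) ^ 2 / c₀ with hK
  have hK0 : 0 < K := by positivity
  have htend := (Real.tendsto_logb_atTop (b := 2) (by norm_num)).comp tendsto_natCast_atTop_atTop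
  obtain ⟨n₀, hn₀⟩ := Filter.eventually_atTop.mp
    (htend.eventually (Filter.eventually_ge_atTop (Real.logb 2 K / 0.005)))
  refine ⟨max n₀ 1, fun L b c V _ G hn hG hP hE => ?_⟩
  have hn1 : 1 ≤ Fintype.card V := (le_max_right _ _).trans hn
  have : Nonempty V := Fintype.card_pos_iff.1 hn1
  have h1 := det_order r c₀ (1 / 7) (by omega) (by norm_num) L b c G hG hP hE
  set n := Fintype.card V with hn'
  have hn0 : (0 : ℝ) < n := by exact_mod_cast hn1
  have hlog0 : 0 ≤ Real.logb 2 (n : ℝ) := Real.logb_nonneg (by norm_num) (by exact_mod_cast hn1)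
  have h2 := hn₀ n ((le_max_left _ _).trans hn)
  simp only [Function.comp] at h2
  rw [div_le_iff₀ (by norm_num)] at h2
  -- `L` is positive
  have hL : 0 < (L : ℝ) := by
    have : (0 : ℝ) < c₀ * (n : ℝ) ^ (1 - 1 / (r : ℝ) - Real.logb 2 (1 + 1 / 7)) := by positivity
    have h3 := this.trans_le h1
    rcases Nat.eq_zero_or_pos L with h0 | h0
    · subst h0
      simp at h3
    · exact_mod_cast h0
  have h3 : (n : ℝ) ^ (1 - 1 / (r : ℝ) - Real.logb 2 (1 + 1 / 7)) ≤ K * (L * 2 ^ b * 8 ^ c) := by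
    rw [hK, div_mul_eq_mul_div, le_div_iff₀ hc₀]
    have e : ((1 + 1 / 7 : ℝ) / (1 / 7)) = 8 := by norm_num
    rw [e] at h1
    linarith
  have h4 := Real.logb_le_logb_of_le (b := 2) (by norm_num) (by positivity) h3
  rw [Real.logb_rpow_eq_mul_logb_of_pos hn0, Real.logb_mul hK0.ne' (by positivity),
    Real.logb_mul (by positivity) (by positivity), Real.logb_mul hL.ne' (by positivity),
    Real.logb_pow, Real.logb_pow, Real.logb_self_eq_one (by norm_num),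
    show (8 : ℝ) = 2 ^ (3 : ℕ) by norm_num, Real.logb_pow, Real.logb_self_eq_one (by norm_num)] at h4
  have h5 : 1 / (r : ℝ) ≤ 1 / 2 := by
    rw [div_le_div_iff₀ (by linarith) (by norm_num)]; linarith
  have h6 := logb_87
  have h7 : (0.305 : ℝ) * Real.logb 2 n ≤ (1 - 1 / (r : ℝ) - Real.logb 2 (1 + 1 / 7)) *
      Real.logb 2 n := by
    apply mul_le_mul_of_nonneg_right _ hlog0
    linarith
  push_cast at h4
  linarith

end Pool.Agent.T9h97.RC
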