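import Pool.Agent.T9h97.RC.Thr

/-!
# Randomised protocols and randomised threshold circuits
-/

set_option autoImplicit false

open Finset

namespace Pool.Agent.T9h97.RC

/-- the largest number of steps (bits and comparisons) on a path -/
def Prot.steps {V : Type} : Prot V → ℕ
  | .ans _ => 0
  | .alice _ P Q => max P.steps Q.steps + 1
  | .bob _ P Q => max P.steps Q.steps + 1
  | .cmp _ _ P Q => max P.steps Q.steps + 1

/-- Adjacency in `G` is decided by a randomised protocol with public coins and at most `c` steps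
(bits or comparisons): `ω` is chosen with the probability `w ω`, and the protocol `P ω` is used.
Adjacent vertices are accepted with probability at least `2/3`, different vertices which are not
adjacent with probability at most `1/3`. -/
def RandProt {V : Type} (G : SimpleGraph V) (c : ℕ) : Prop :=
  ∃ (Ω : Type) (_ : Fintype Ω) (w : Ω → ℝ) (P : Ω → Prot V),
    (∀ ω, 0 ≤ w ω) ∧ ∑ ω, w ω = 1 ∧ (∀ ω, (P ω).steps ≤ c) ∧
    (∀ x y, G.Adj x y → 2 / 3 ≤ ∑ ω, if (P ω).out x y = true then w ω else 0) ∧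
    (∀ x y, x ≠ y → ¬ G.Adj x y → (∑ ω, if (P ω).out x y = true then w ω else 0) ≤ 1 / 3)

/-- Circuits of linear threshold gates on the labels `lab x`, `lab y` of two vertices. The gate `i`
has the weights `w i` for the label of `x`, `w' i` for the label of `y`, `u i` for the earlier gates,
and the threshold `θ i`. -/
structure Circ (V : Type) where
  /-- the length of the labels -/
  m : ℕ
  /-- the labels -/
  lab : V → Fin m → ℝ
  /-- the weights of the first label -/
  w : ℕ → Fin m → ℝ
  /-- the weights of the second label -/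
  w' : ℕ → Fin m → ℝ
  /-- the weights of the earlier gates -/
  u : ℕ → ℕ → ℝ
  /-- the thresholds -/
  θ : ℕ → ℝ

/-- the value of the gate `i` -/
noncomputable def Circ.gate {V : Type} (C : Circ V) (x y : V) (i : ℕ) : Bool :=
  decide (C.θ i ≤ ∑ j, C.w i j * C.lab x j + ∑ j, C.w' i j * C.lab y j +
    ∑ j : Fin i, if C.gate x y j = true then C.u i j else 0)
termination_by i
decreasing_by all_goals exact j.isLt

/-- Adjacency in `G` is decided by a random circuit with `s` linear threshold gates, the last of which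
is the output, with error `1/3`. -/
def RandCirc {V : Type} (G : SimpleGraph V) (s : ℕ) : Prop :=
  ∃ (Ω : Type) (_ : Fintype Ω) (w : Ω → ℝ) (C : Ω → Circ V),
    (∀ ω, 0 ≤ w ω) ∧ ∑ ω, w ω = 1 ∧
    (∀ x y, G.Adj x y → 2 / 3 ≤ ∑ ω, if (C ω).gate x y (s - 1) = true then w ω else 0) ∧
    (∀ x y, x ≠ y → ¬ G.Adj x y →
      (∑ ω, if (C ω).gate x y (s - 1) = true then w ω else 0) ≤ 1 / 3)

variable {V : Type}

/-- a protocol as a function of few comparisons, for some index set -/
lemma prot_rep (P : Prot V) : ∃ (J : Type) (_ : Fintype J) (a b : V → J → ℝ)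
    (Λ : (J → Bool) → Bool), Fintype.card J + 1 ≤ 2 ^ P.steps ∧
      ∀ x y, P.out x y = Λ fun i => decide (a x i ≤ b y i) := by
  have node : ∀ (α β : V → ℝ) (P Q : Prot V) (R : Prot V), R.steps = max P.steps Q.steps + 1 →
      (∀ x y, R.out x y = if α x ≤ β y then P.out x y else Q.out x y) →
      (∃ (J : Type) (_ : Fintype J) (a b : V → J → ℝ)
        (Λ : (J → Bool) → Bool), Fintype.card J + 1 ≤ 2 ^ P.steps ∧
        ∀ x y, P.out x y = Λ fun i => decide (a x i ≤ b y i)) →
      (∃ (J : Type) (_ : Fintype J) (a b : V → J → ℝ)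
        (Λ : (J → Bool) → Bool), Fintype.card J + 1 ≤ 2 ^ Q.steps ∧
        ∀ x y, Q.out x y = Λ fun i => decide (a x i ≤ b y i)) →
      ∃ (J : Type) (_ : Fintype J) (a b : V → J → ℝ)
        (Λ : (J → Bool) → Bool), Fintype.card J + 1 ≤ 2 ^ R.steps ∧
        ∀ x y, R.out x y = Λ fun i => decide (a x i ≤ b y i) := by
    rintro α β P Q R hR hout ⟨J₁, _, a₁, b₁, Λ₁, h₁, e₁⟩ ⟨J₂, _, a₂, b₂, Λ₂, h₂, e₂⟩
    refine ⟨Option (J₁ ⊕ J₂), inferInstance,
      fun x i => match i with
        | none => α x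
        | some (Sum.inl i) => a₁ x i
        | some (Sum.inr i) => a₂ x i,
      fun y i => match i with
        | none => β y
        | some (Sum.inl i) => b₁ y i
        | some (Sum.inr i) => b₂ y i,
      fun f => if f none = true then Λ₁ (fun i => f (some (Sum.inl i)))
        else Λ₂ (fun i => f (some (Sum.inr i))), ?_, ?_⟩
    · rw [Fintype.card_option, Fintype.card_sum, hR, pow_succ]
      have h3 : 2 ^ P.steps ≤ 2 ^ max P.steps Q.steps :=
        Nat.pow_le_pow_right (by norm_num) (le_max_left _ _)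
      have h4 : 2 ^ Q.steps ≤ 2 ^ max P.steps Q.steps :=
        Nat.pow_le_pow_right (by norm_num) (le_max_right _ _)
      omega
    · intro x y
      rw [hout x y]
      by_cases h : α x ≤ β y
      · simp [h, e₁ x y]
      · simp [h, e₂ x y]
  induction P with
  | ans v =>
    refine ⟨Empty, inferInstance, fun _ i => i.elim, fun _ i => i.elim, fun _ => v, ?_, ?_⟩
    · simp [Prot.steps]
    · intro x y; rfl
  | alice f P Q ihP ihQ =>
    refine node (fun x => if f x = true then 0 else 1) (fun _ => 0) P Q _ rfl ?_ ihP ihQ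
    intro x y
    by_cases h : f x = true
    · simp [Prot.out, h]
    · simp [Prot.out, h]
  | bob g P Q ihP ihQ =>
    refine node (fun _ => 0) (fun y => if g y = true then 0 else -1) P Q _ rfl ?_ ihP ihQ
    intro x y
    by_cases h : g y = true
    · simp [Prot.out, h]
    · simp [Prot.out, h]
  | cmp a b P Q ihP ihQ =>
    exact node a b P Q _ rfl (fun x y => rfl) ihP ihQ

/-- the same, with the index set `Fin (2 ^ c)` -/
lemma prot_rep' (P : Prot V) (c : ℕ) (hc : P.steps ≤ c) : ∃ (a b : V → Fin (2 ^ c) → ℝ)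
    (Λ : (Fin (2 ^ c) → Bool) → Bool),
      ∀ x y, P.out x y = Λ fun i => decide (a x i ≤ b y i) := by
  obtain ⟨J, _, a, b, Λ, h, e⟩ := prot_rep P
  have hcard : Fintype.card J ≤ Fintype.card (Fin (2 ^ c)) := by
    rw [Fintype.card_fin]
    have : 2 ^ P.steps ≤ 2 ^ c := Nat.pow_le_pow_right (by norm_num) hc
    omega
  obtain ⟨ι⟩ := Function.Embedding.nonempty_of_card_le hcard
  refine ⟨fun x => Function.extend ι (a x) 0, fun y => Function.extend ι (b y) 0,
    fun f => Λ (f ∘ ι), ?_⟩
  intro x y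
  rw [e x y]
  congr 1
  funext i
  simp only [Function.comp, ι.injective.extend_apply]

/-- randomised protocols -/
lemma RandProt.rep {G : SimpleGraph V} {c : ℕ} (h : RandProt G c) : ThrRep G (2 ^ c) (2 ^ c) := by
  obtain ⟨Ω, _, w, P, hw0, hw1, hc, h1, h2⟩ := h
  choose a b Λ e using fun ω => prot_rep' (P ω) c (hc ω)
  refine ⟨Ω, Fin (2 ^ c), Fin (2 ^ c), inferInstance, inferInstance, inferInstance, w, a,
    fun _ _ l => l, b, fun ω _ => Λ ω, by simp, by simp, hw0, hw1, ?_, ?_⟩
  · intro x y hxy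
    have := h1 x y hxy
    simp only [e] at this
    exact this
  · intro x y hne hxy
    have := h2 x y hne hxy
    simp only [e] at this
    exact this

/-- extension of the values of gates -/
def ext {s : ℕ} (h : Fin s → Bool) (j : ℕ) : Bool := if hj : j < s then h ⟨j, hj⟩ else false

/-- circuits -/
lemma circ_rep (C : Circ V) (s : ℕ) (hs : 1 ≤ s) : ∃ (a : V → Fin s → ℝ)
    (b : V → Fin s × (Fin s → Bool) → ℝ) (Λ : (Fin s × (Fin s → Bool) → Bool) → Bool),
      ∀ x y, C.gate x y (s - 1) = Λ fun l => decide (a x l.1 ≤ b y l) := by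
  classical
  refine ⟨fun x i => - ∑ j, C.w i j * C.lab x j,
    fun y l => ∑ j, C.w' l.1 j * C.lab y j +
      (∑ j : Fin (l.1 : ℕ), if ext l.2 j = true then C.u l.1 j else 0) - C.θ l.1,
    fun F => decide (∃ g : Fin s → Bool, (∀ i, g i = F (i, g)) ∧ g ⟨s - 1, by omega⟩ = true), ?_⟩
  intro x y
  -- the gates form a fixed point
  have hfix : ∀ g : Fin s → Bool, (∀ i : Fin s, g i = decide ((- ∑ j, C.w i j * C.lab x j) ≤
      ∑ j, C.w' i j * C.lab y j +
      (∑ j : Fin (i : ℕ), if ext g j = true then C.u i j else 0) - C.θ i)) ↔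
      ∀ i : Fin s, g i = C.gate x y i := by
    intro g
    have hval : ∀ i : Fin s, (∀ j : Fin s, j < i → g j = C.gate x y j) →
        decide ((- ∑ j, C.w i j * C.lab x j) ≤ ∑ j, C.w' i j * C.lab y j +
          (∑ j : Fin (i : ℕ), if ext g j = true then C.u i j else 0) - C.θ i) =
          C.gate x y i := by
      intro i hi
      rw [Circ.gate]
      have e1 : (∑ j : Fin (i : ℕ), if ext g j = true then C.u i j else 0) =
          ∑ j : Fin (i : ℕ), if C.gate x y j = true then C.u i j else 0 := by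
        apply sum_congr rfl; intro j _
        have hj : (j : ℕ) < s := j.2.trans i.2
        have : ext g (j : ℕ) = C.gate x y j := by
          unfold ext
          rw [dif_pos hj]
          exact hi ⟨j, hj⟩ (by exact_mod_cast j.2)
        rw [this]
      rw [e1]
      congr 1
      apply propext
      constructor <;> intro h <;> linarith
    constructor
    · intro h i
      induction' hn : (i : ℕ) using Nat.strong_induction_on with n ih generalizing i
      rw [h i, ← hn]
      apply hval i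
      intro j hj
      exact ih j (by rw [← hn]; exact_mod_cast hj) j rfl
    · intro h i
      rw [hval i (fun j _ => h j), h i]
  by_cases hg : C.gate x y (s - 1) = true
  · rw [hg]
    symm
    rw [decide_eq_true_iff]
    refine ⟨fun i => C.gate x y i, ?_, hg⟩
    exact (hfix (fun i => C.gate x y i)).2 (fun i => rfl)
  · have hg' : C.gate x y (s - 1) = false := by simpa using hg
    rw [hg']
    symm
    rw [decide_eq_false_iff_not]
    rintro ⟨g, h1, h2⟩
    have h3 := (hfix g).1 h1 ⟨s - 1, by omega⟩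
    rw [h2] at h3
    simp only at h3
    rw [← h3] at hg'
    exact absurd hg' (by simp)

/-- random circuits -/
lemma RandCirc.rep {G : SimpleGraph V} {s : ℕ} (hs : 1 ≤ s) (h : RandCirc G s) :
    ThrRep G s (s * 2 ^ s) := by
  obtain ⟨Ω, _, w, C, hw0, hw1, h1, h2⟩ := h
  choose a b Λ e using fun ω => circ_rep (C ω) s hs
  refine ⟨Ω, Fin s, Fin s × (Fin s → Bool), inferInstance, inferInstance, inferInstance, w, a,
    fun _ _ l => l.1, b, fun ω _ => Λ ω, by simp, by simp, hw0, hw1, ?_, ?_⟩
  · intro x y hxy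
    have := h1 x y hxy
    simp only [e] at this
    exact this
  · intro x y hne hxy
    have := h2 x y hne hxy
    simp only [e] at this
    exact this

/-- growth of the complexity -/
theorem thr_growth (r : ℕ) (c₀ : ℝ) (hr : 2 ≤ r) (hc₀ : 0 < c₀) : ∃ ε : ℝ, 0 < ε ∧
    ∀ (N Q : ℕ) (V : Type) [Fintype V] [Nonempty V] (G : SimpleGraph V), 1 ≤ N → 1 ≤ Q →
      (completeBipartiteGraph (Fin r) (Fin r)).Free G → ThrRep G N Q →
      c₀ * (Fintype.card V : ℝ) ^ (2 - 1 / (r : ℝ)) ≤ Nat.card G.edgeSet →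
      ε * Real.logb 2 (Fintype.card V) ≤ N * Real.logb 2 (2 * N * Q) := by
  have hr0 : (2 : ℝ) ≤ r := by exact_mod_cast hr
  have hcD := cD_pos r (by omega)
  set K : ℝ := max 2 (2 * cD r / c₀) with hK
  have hK2 : 2 ≤ K := le_max_left _ _
  have hlK : 1 ≤ Real.logb 2 K := by
    rw [Real.le_logb_iff_rpow_le (by norm_num) (by linarith), Real.rpow_one]; exact hK2
  refine ⟨1 / (800 * (r + 1) * Real.logb 2 K), by positivity, ?_⟩
  intro N Q V _ _ G hN hQ hG hrep hE
  have hN0 : (1 : ℝ) ≤ N := by exact_mod_cast hN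
  have hQ0 : (1 : ℝ) ≤ Q := by exact_mod_cast hQ
  have hb := thr_bound r hr N Q hN hQ V G hG hrep
  obtain ⟨lam, hlam⟩ : ∃ lam, lam = Real.logb 2 (2 * N * Q) := ⟨_, rfl⟩
  have hlam1 : 1 ≤ lam := by
    rw [hlam, Real.le_logb_iff_rpow_le (by norm_num) (by nlinarith), Real.rpow_one]
    nlinarith
  rw [← hlam] at hb ⊢
  have hn1 : (1 : ℝ) ≤ (Fintype.card V : ℝ) := by exact_mod_cast Fintype.card_pos
  obtain ⟨n, hn⟩ : ∃ n : ℝ, n = (Fintype.card V : ℝ) := ⟨_, rfl⟩
  rw [← hn] at hb hE hn1 ⊢
  have hn0 : 0 < n := by linarith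
  obtain ⟨δ, hδ⟩ : ∃ δ : ℝ, δ = 1 / (800 * (r + N * lam)) := ⟨_, rfl⟩
  rw [← hδ] at hb
  have hY0 : 0 < (r : ℝ) + N * lam := by positivity
  have hδ0 : 0 < δ := by rw [hδ]; positivity
  have h1 : c₀ * n ^ δ ≤ 2 * cD r := by
    have e : n ^ (2 - 1 / (r : ℝ)) = n ^ δ * n ^ (2 - 1 / (r : ℝ) - δ) := by
      rw [← Real.rpow_add hn0]; congr 1; ring
    have h2 := hE.trans hb
    rw [e, ← mul_assoc] at h2
    exact le_of_mul_le_mul_right h2 (Real.rpow_pos_of_pos hn0 _)
  have h2 : n ^ δ ≤ K := by
    refine le_trans ?_ (le_max_right _ _)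
    rw [le_div_iff₀ hc₀]; linarith
  have h3 := Real.logb_le_logb_of_le (b := 2) (by norm_num) (Real.rpow_pos_of_pos hn0 _) h2
  rw [Real.logb_rpow_eq_mul_logb_of_pos hn0] at h3
  have h4 : Real.logb 2 n ≤ 800 * (r + N * lam) * Real.logb 2 K := by
    rw [hδ, one_div_mul_eq_div, div_le_iff₀ (by positivity)] at h3
    linarith
  have h5 : (r : ℝ) + N * lam ≤ (r + 1) * (N * lam) := by
    have : 1 ≤ (N : ℝ) * lam := by nlinarith
    nlinarith
  rw [one_div_mul_eq_div, div_le_iff₀ (by positivity)]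
  calc Real.logb 2 n ≤ 800 * (r + N * lam) * Real.logb 2 K := h4
    _ ≤ 800 * ((r + 1) * (N * lam)) * Real.logb 2 K := by gcongr
    _ = _ := by ring

end Pool.Agent.T9h97.RC
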