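import Pool.Agent.T9h97.RC.OW

/-!
# Numerical estimates
-/

set_option autoImplicit false

open Finset

namespace Pool.Agent.T9h97.RC

lemma base_pow (t : ℕ) :
    ((1 / 3 : ℝ) ^ t) ^ (1 / 2 : ℝ) ≤ (19 / 30 : ℝ) ^ t * (2 : ℝ) ^ (-(t : ℝ) / 8) := by
  have hx : 0 ≤ ((1 / 3 : ℝ) ^ t) ^ (1 / 2 : ℝ) := by positivity
  have hy : 0 ≤ (19 / 30 : ℝ) ^ t * (2 : ℝ) ^ (-(t : ℝ) / 8) := by positivity
  rw [← pow_le_pow_iff_left₀ hx hy (by norm_num : (8 : ℕ) ≠ 0)]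
  have e1 : (((1 / 3 : ℝ) ^ t) ^ (1 / 2 : ℝ)) ^ 8 = (1 / 81 : ℝ) ^ t := by
    rw [← Real.rpow_natCast _ 8, ← Real.rpow_mul (by positivity)]
    rw [show (1 / 2 : ℝ) * ((8 : ℕ) : ℝ) = ((4 : ℕ) : ℝ) by norm_num, Real.rpow_natCast, ← pow_mul,
      mul_comm, pow_mul]
    norm_num
  have e2 : ((19 / 30 : ℝ) ^ t * (2 : ℝ) ^ (-(t : ℝ) / 8)) ^ 8 =
      ((19 / 30 : ℝ) ^ 8 / 2) ^ t := by
    rw [mul_pow, ← Real.rpow_natCast ((2 : ℝ) ^ (-(t : ℝ) / 8)) 8, ← Real.rpow_mul (by norm_num)]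
    rw [show -(t : ℝ) / 8 * ((8 : ℕ) : ℝ) = -(t : ℝ) by push_cast; ring, Real.rpow_neg (by norm_num),
      Real.rpow_natCast, div_pow ((19 / 30 : ℝ) ^ 8) 2 t, ← pow_mul, ← pow_mul, mul_comm t 8]
    exact (div_eq_mul_inv _ _).symm
  rw [e1, e2]
  apply pow_le_pow_left₀ (by norm_num)
  norm_num

/-- from the inequality of `core` to a bound -/
lemma numA (r : ℕ) (hr : 2 ≤ r) (c n f κ : ℝ) (t : ℕ) (hc : 1 ≤ c) (hn : 1 ≤ n) (hf : 0 < f)
    (hκ : 1 ≤ κ)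
    (h : (19 / 30 : ℝ) ^ t * f ≤ (2 * r : ℝ) ^ (1 / (r : ℝ)) * (n ^ (1 / (r : ℝ)) *
        ((1 / 3 : ℝ) ^ t * n ^ 2 + n + f) ^ (1 - 1 / (r : ℝ))) +
      c ^ (1 / (r : ℝ)) * (f ^ (1 / (r : ℝ)) * (κ * n) ^ (1 - 1 / (r : ℝ)))) :
    f ≤ ((8 * r : ℝ) ^ r + 16 * c ^ 2) *
      ((2 : ℝ) ^ (-(t : ℝ) / 8) * n ^ (2 - 1 / (r : ℝ)) + 2 ^ (r * t + 2 * t) * κ * n) := by
  have hr0 : (2 : ℝ) ≤ r := by exact_mod_cast hr
  have hn0 : 0 < n := by linarith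
  have hκ0 : 0 < κ := by linarith
  set θ : ℝ := 1 / (r : ℝ) with hθ
  have hθ0 : 0 < θ := by rw [hθ]; positivity
  have hθ2 : θ ≤ 1 / 2 := by
    rw [hθ, div_le_div_iff₀ (by linarith) (by norm_num)]; linarith
  have hθr : θ * r = 1 := by rw [hθ]; field_simp
  have h2r : (2 * r : ℝ) ^ θ ≤ 2 * r := by
    calc (2 * r : ℝ) ^ θ ≤ (2 * r : ℝ) ^ (1 : ℝ) :=
          Real.rpow_le_rpow_of_exponent_le (by linarith) (by linarith)
      _ = 2 * r := Real.rpow_one _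
  have hcθ : c ^ θ ≤ c := by
    calc c ^ θ ≤ c ^ (1 : ℝ) := Real.rpow_le_rpow_of_exponent_le hc (by linarith)
      _ = c := Real.rpow_one _
  -- the three parts
  have h3 : ((1 / 3 : ℝ) ^ t * n ^ 2 + n + f) ^ (1 - θ) ≤
      ((1 / 3 : ℝ) ^ t) ^ (1 / 2 : ℝ) * n ^ (2 - 2 * θ) + n ^ (1 - θ) + f ^ (1 - θ) := by
    have s1 := add_rpow (x := (1 / 3 : ℝ) ^ t * n ^ 2 + n) (y := f) (θ := 1 - θ) (by positivity)
      hf.le (by linarith) (by linarith)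
    have s2 := add_rpow (x := (1 / 3 : ℝ) ^ t * n ^ 2) (y := n) (θ := 1 - θ) (by positivity)
      hn0.le (by linarith) (by linarith)
    have s3 : ((1 / 3 : ℝ) ^ t * n ^ 2) ^ (1 - θ) ≤
        ((1 / 3 : ℝ) ^ t) ^ (1 / 2 : ℝ) * n ^ (2 - 2 * θ) := by
      rw [Real.mul_rpow (by positivity) (by positivity)]
      have e1 : (n ^ 2) ^ (1 - θ) = n ^ (2 - 2 * θ) := by
        rw [← Real.rpow_natCast n 2, ← Real.rpow_mul hn0.le]
        congr 1; push_cast; ring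
      rw [e1]
      apply mul_le_mul_of_nonneg_right _ (by positivity)
      apply Real.rpow_le_rpow_of_exponent_ge (by positivity)
        (pow_le_one₀ (by norm_num) (by norm_num)) (by linarith)
    linarith
  have hA := base_pow t
  by_contra hcon
  push Not at hcon
  set D : ℝ := (8 * r : ℝ) ^ r + 16 * c ^ 2 with hD
  have h8r : (8 * r : ℝ) ≤ (8 * r : ℝ) ^ r := by
    calc (8 * r : ℝ) = (8 * r : ℝ) ^ 1 := (pow_one _).symm
      _ ≤ (8 * r : ℝ) ^ r := pow_le_pow_right₀ (by linarith) (by omega)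
  have hDr : (8 * r : ℝ) ^ r ≤ D := by rw [hD]; nlinarith
  have hDc : 16 * c ^ 2 ≤ D := by
    rw [hD]
    have : (0 : ℝ) ≤ (8 * r : ℝ) ^ r := by positivity
    linarith
  have hD0 : 0 < D := by
    have : (0 : ℝ) < (8 * r : ℝ) ^ r := by positivity
    linarith
  set β : ℝ := (19 / 30 : ℝ) ^ t with hβ
  have hβ0 : 0 < β := by rw [hβ]; positivity
  have hβ2 : ((2 : ℝ) ^ t)⁻¹ ≤ β := by
    rw [hβ, ← inv_pow]
    exact pow_le_pow_left₀ (by norm_num) (by norm_num) t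
  have h2t : (1 : ℝ) ≤ 2 ^ t := one_le_pow₀ (by norm_num)
  have hP1 : 0 ≤ (2 : ℝ) ^ (-(t : ℝ) / 8) * n ^ (2 - θ) := by positivity
  have hP2 : 0 ≤ (2 : ℝ) ^ (r * t + 2 * t) * κ * n := by positivity
  -- (a)
  have hfa : 8 * r * ((2 : ℝ) ^ (-(t : ℝ) / 8) * n ^ (2 - θ)) < f := by
    refine lt_of_le_of_lt ?_ hcon
    nlinarith [mul_le_mul_of_nonneg_right (h8r.trans hDr) hP1, mul_nonneg hD0.le hP2]
  have ha : 2 * r * (n ^ θ * (((1 / 3 : ℝ) ^ t) ^ (1 / 2 : ℝ) * n ^ (2 - 2 * θ))) < β * f / 4 := by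
    have e1 : n ^ θ * (((1 / 3 : ℝ) ^ t) ^ (1 / 2 : ℝ) * n ^ (2 - 2 * θ)) =
        ((1 / 3 : ℝ) ^ t) ^ (1 / 2 : ℝ) * n ^ (2 - θ) := by
      have : n ^ (2 - θ) = n ^ θ * n ^ (2 - 2 * θ) := by
        rw [← Real.rpow_add hn0]; congr 1; ring
      rw [this]; ring
    rw [e1]
    calc 2 * r * (((1 / 3 : ℝ) ^ t) ^ (1 / 2 : ℝ) * n ^ (2 - θ))
        ≤ 2 * r * ((β * (2 : ℝ) ^ (-(t : ℝ) / 8)) * n ^ (2 - θ)) := by gcongr
      _ = β * (8 * r * ((2 : ℝ) ^ (-(t : ℝ) / 8) * n ^ (2 - θ))) / 4 := by ring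
      _ < β * f / 4 := by
          have := mul_lt_mul_of_pos_left hfa hβ0
          linarith
  -- the second part of the bound
  have hbig : ∀ a : ℝ, a ≤ D → 0 ≤ a → ∀ e : ℝ, e ≤ (2 : ℝ) ^ (r * t + 2 * t) → 0 ≤ e →
      a * (e * κ * n) < f := by
    intro a haD ha0 e he he0
    refine lt_of_le_of_lt ?_ hcon
    have s1 : a * (e * κ * n) ≤ D * ((2 : ℝ) ^ (r * t + 2 * t) * κ * n) := by gcongr
    have s2 := mul_nonneg hD0.le hP1
    linarith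
  -- (b)
  have hb : 2 * r * (n ^ θ * n ^ (1 - θ)) < β * f / 4 := by
    rw [← Real.rpow_add hn0, add_sub_cancel, Real.rpow_one]
    have h1 := hbig (8 * r) (h8r.trans hDr) (by positivity) (2 ^ t)
      (pow_le_pow_right₀ (by norm_num) (by nlinarith)) (by positivity)
    have h2 : 8 * r * (2 ^ t * n) ≤ 8 * r * (2 ^ t * κ * n) := by
      have : 2 ^ t * n ≤ 2 ^ t * κ * n := by
        have := mul_le_mul_of_nonneg_left hκ (show (0:ℝ) ≤ 2 ^ t * n by positivity)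
        linarith
      exact mul_le_mul_of_nonneg_left this (by positivity)
    have h3 : 8 * r * (2 ^ t * n) < f := lt_of_le_of_lt h2 h1
    have h4 : 8 * r * n < β * f := by
      calc 8 * r * n = ((2 : ℝ) ^ t)⁻¹ * (8 * r * (2 ^ t * n)) := by field_simp
        _ < ((2 : ℝ) ^ t)⁻¹ * f := mul_lt_mul_of_pos_left h3 (by positivity)
        _ ≤ β * f := mul_le_mul_of_nonneg_right hβ2 hf.le
    linarith
  -- (c)
  have hc' : 2 * r * (n ^ θ * f ^ (1 - θ)) < β * f / 4 := by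
    have h1 := hbig ((8 * r : ℝ) ^ r) hDr (by positivity) ((2 ^ t) ^ r)
      (by rw [← pow_mul]; exact pow_le_pow_right₀ (by norm_num) (by nlinarith)) (by positivity)
    have h2 : ((8 * r * 2 ^ t : ℝ) ^ r) * n < f := by
      refine lt_of_le_of_lt ?_ h1
      rw [mul_pow]
      have : (0 : ℝ) ≤ (8 * r) ^ r * (2 ^ t) ^ r * n := by positivity
      nlinarith
    have h3 : (8 * r * 2 ^ t : ℝ) * n ^ θ < f ^ θ := by
      have s1 := Real.rpow_lt_rpow (by positivity) h2 hθ0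
      rw [Real.mul_rpow (by positivity) hn0.le, ← Real.rpow_natCast, ← Real.rpow_mul (by positivity),
        mul_comm (r : ℝ) θ, hθr, Real.rpow_one] at s1
      exact s1
    have h4 : f = f ^ θ * f ^ (1 - θ) := by
      rw [← Real.rpow_add hf, add_sub_cancel, Real.rpow_one]
    have hf1 : 0 < f ^ (1 - θ) := by positivity
    have h5 : (8 * r * 2 ^ t : ℝ) * n ^ θ * f ^ (1 - θ) < f := by
      calc (8 * r * 2 ^ t : ℝ) * n ^ θ * f ^ (1 - θ) < f ^ θ * f ^ (1 - θ) :=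
            mul_lt_mul_of_pos_right h3 hf1
        _ = f := h4.symm
    have h6 : 8 * r * (n ^ θ * f ^ (1 - θ)) < β * f := by
      calc 8 * r * (n ^ θ * f ^ (1 - θ)) =
            ((2 : ℝ) ^ t)⁻¹ * ((8 * r * 2 ^ t : ℝ) * n ^ θ * f ^ (1 - θ)) := by field_simp
        _ < ((2 : ℝ) ^ t)⁻¹ * f := mul_lt_mul_of_pos_left h5 (by positivity)
        _ ≤ β * f := mul_le_mul_of_nonneg_right hβ2 hf.le
    linarith
  -- (d)
  have hd : c * (f ^ θ * (κ * n) ^ (1 - θ)) < β * f / 4 := by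
    have h1 := hbig (16 * c ^ 2) hDc (by positivity) ((2 ^ t) ^ 2)
      (by rw [← pow_mul]; exact pow_le_pow_right₀ (by norm_num) (by nlinarith)) (by positivity)
    have h2 : ((4 * c * 2 ^ t : ℝ) ^ 2) * (κ * n) < f := by
      refine lt_of_le_of_lt (le_of_eq ?_) h1
      ring
    have h3 : (4 * c * 2 ^ t : ℝ) * (κ * n) ^ (1 - θ) < f ^ (1 - θ) := by
      have s1 := Real.rpow_lt_rpow (by positivity) h2 (show 0 < 1 - θ by linarith)
      rw [Real.mul_rpow (by positivity) (by positivity)] at s1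
      refine lt_of_le_of_lt ?_ s1
      apply mul_le_mul_of_nonneg_right _ (by positivity)
      rw [← Real.rpow_natCast (4 * c * 2 ^ t : ℝ) 2, ← Real.rpow_mul (by positivity)]
      have s2 : (1 : ℝ) ≤ 4 * c * 2 ^ t := by nlinarith
      calc (4 * c * 2 ^ t : ℝ) = (4 * c * 2 ^ t : ℝ) ^ (1 : ℝ) := (Real.rpow_one _).symm
        _ ≤ _ := Real.rpow_le_rpow_of_exponent_le s2 (by push_cast; linarith)
    have h4 : f = f ^ θ * f ^ (1 - θ) := by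
      rw [← Real.rpow_add hf, add_sub_cancel, Real.rpow_one]
    have hf1 : 0 < f ^ θ := by positivity
    have h5 : (4 * c * 2 ^ t : ℝ) * (f ^ θ * (κ * n) ^ (1 - θ)) < f := by
      calc (4 * c * 2 ^ t : ℝ) * (f ^ θ * (κ * n) ^ (1 - θ)) =
            f ^ θ * ((4 * c * 2 ^ t : ℝ) * (κ * n) ^ (1 - θ)) := by ring
        _ < f ^ θ * f ^ (1 - θ) := mul_lt_mul_of_pos_left h3 hf1
        _ = f := h4.symm
    have h6 : 4 * (c * (f ^ θ * (κ * n) ^ (1 - θ))) < β * f := by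
      calc 4 * (c * (f ^ θ * (κ * n) ^ (1 - θ))) =
            ((2 : ℝ) ^ t)⁻¹ * ((4 * c * 2 ^ t : ℝ) * (f ^ θ * (κ * n) ^ (1 - θ))) := by field_simp
        _ < ((2 : ℝ) ^ t)⁻¹ * f := mul_lt_mul_of_pos_left h5 (by positivity)
        _ ≤ β * f := mul_le_mul_of_nonneg_right hβ2 hf.le
    linarith
  -- together
  have hsum : (2 * r : ℝ) ^ θ * (n ^ θ * ((1 / 3 : ℝ) ^ t * n ^ 2 + n + f) ^ (1 - θ)) +
      c ^ θ * (f ^ θ * (κ * n) ^ (1 - θ)) ≤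
      2 * r * (n ^ θ * (((1 / 3 : ℝ) ^ t) ^ (1 / 2 : ℝ) * n ^ (2 - 2 * θ) + n ^ (1 - θ) +
        f ^ (1 - θ))) + c * (f ^ θ * (κ * n) ^ (1 - θ)) := by
    apply add_le_add
    · apply mul_le_mul h2r _ (by positivity) (by positivity)
      exact mul_le_mul_of_nonneg_left h3 (by positivity)
    · exact mul_le_mul_of_nonneg_right hcθ (by positivity)
  have hfin := h.trans hsum
  have hexp : 2 * r * (n ^ θ * (((1 / 3 : ℝ) ^ t) ^ (1 / 2 : ℝ) * n ^ (2 - 2 * θ) + n ^ (1 - θ) +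
        f ^ (1 - θ))) = 2 * r * (n ^ θ * (((1 / 3 : ℝ) ^ t) ^ (1 / 2 : ℝ) * n ^ (2 - 2 * θ))) +
        2 * r * (n ^ θ * n ^ (1 - θ)) + 2 * r * (n ^ θ * f ^ (1 - θ)) := by ring
  rw [hexp] at hfin
  linarith

end Pool.Agent.T9h97.RC
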