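import Pool.Agent.N376.MP.Star

/-!
# The one-way inequality

In a graph without `K_{r,r}` on the vertex set `U` the edges are spread over the pairs
`(class of x, y)`, for all partitions of the vertices `x` into a moderate number of classes.
-/

set_option autoImplicit false

open Finset

namespace Pool.Agent.T9h97.RC

open Pool.Agent.N376.MP (adj nb cs kst adj_nonneg adj_le nb_nonneg one_le_cs)

/-- Hölder's inequality for sums of geometric means -/
lemma holder {ι : Type*} (s : Finset ι) (u v : ι → ℝ) (hu : ∀ i ∈ s, 0 ≤ u i)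
    (hv : ∀ i ∈ s, 0 ≤ v i) (θ : ℝ) (h0 : 0 < θ) (h1 : θ < 1) :
    ∑ i ∈ s, u i ^ θ * v i ^ (1 - θ) ≤ (∑ i ∈ s, u i) ^ θ * (∑ i ∈ s, v i) ^ (1 - θ) := by
  have h2 : 0 < 1 - θ := by linarith
  have hpq : (1 / θ).HolderConjugate (1 / (1 - θ)) := by
    rw [Real.holderConjugate_iff]
    constructor
    · rw [lt_div_iff₀ h0]; linarith
    · rw [one_div, one_div, inv_inv, inv_inv]; ring
  have h := Real.inner_le_Lp_mul_Lq_of_nonneg (s := s) (f := fun i => u i ^ θ)
    (g := fun i => v i ^ (1 - θ)) hpq (fun i hi => Real.rpow_nonneg (hu i hi) _)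
    (fun i hi => Real.rpow_nonneg (hv i hi) _)
  have e1 : ∑ i ∈ s, (u i ^ θ) ^ (1 / θ) = ∑ i ∈ s, u i := by
    apply sum_congr rfl; intro i hi
    rw [← Real.rpow_mul (hu i hi), mul_one_div_cancel h0.ne', Real.rpow_one]
  have e2 : ∑ i ∈ s, (v i ^ (1 - θ)) ^ (1 / (1 - θ)) = ∑ i ∈ s, v i := by
    apply sum_congr rfl; intro i hi
    rw [← Real.rpow_mul (hv i hi), mul_one_div_cancel h2.ne', Real.rpow_one]
  rw [e1, e2, one_div_one_div, one_div_one_div] at h
  exact h

lemma add_rpow {x y θ : ℝ} (hx : 0 ≤ x) (hy : 0 ≤ y) (h0 : 0 ≤ θ) (h1 : θ ≤ 1) :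
    (x + y) ^ θ ≤ x ^ θ + y ^ θ := by
  have := NNReal.rpow_add_le_add_rpow (⟨x, hx⟩ : NNReal) ⟨y, hy⟩ h0 h1
  exact_mod_cast this

variable {V : Type} [Fintype V] [DecidableEq V]

/-- the part of the graph inside `U` -/
def sub (G : SimpleGraph V) (U : Finset V) : SimpleGraph V where
  Adj x y := G.Adj x y ∧ x ∈ U ∧ y ∈ U
  symm := ⟨fun _ _ h => ⟨h.1.symm, h.2.2, h.2.1⟩⟩
  loopless := ⟨fun _ h => h.1.ne rfl⟩

omit [Fintype V] [DecidableEq V] in
lemma sub_free {G : SimpleGraph V} {r : ℕ} (hG : (completeBipartiteGraph (Fin r) (Fin r)).Free G)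
    (U : Finset V) : (completeBipartiteGraph (Fin r) (Fin r)).Free (sub G U) :=
  fun h => hG (h.mono_right fun _ _ h => h.1)

omit [Fintype V] in
lemma adj_sub (G : SimpleGraph V) (U : Finset V) (x y : V) :
    adj (sub G U) x y = if x ∈ U ∧ y ∈ U then adj G x y else 0 := by
  unfold adj sub
  by_cases h : G.Adj x y <;> by_cases h' : x ∈ U ∧ y ∈ U <;> simp [h, h']

/-- the number of edges (as ordered pairs) between two sets -/
noncomputable def ed (G : SimpleGraph V) (A B : Finset V) : ℝ := ∑ x ∈ A, ∑ y ∈ B, adj G x y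

omit [Fintype V] [DecidableEq V] in
lemma ed_nonneg (G : SimpleGraph V) (A B : Finset V) : 0 ≤ ed G A B :=
  sum_nonneg fun _ _ => sum_nonneg fun _ _ => adj_nonneg G _ _

/-- the bound of Kővári, Sós and Turán inside `U` -/
lemma kst_sub (G : SimpleGraph V) (r : ℕ) (hr : 1 ≤ r)
    (hG : (completeBipartiteGraph (Fin r) (Fin r)).Free G) (U W : Finset V) (hW : W ⊆ U) :
    ∑ y ∈ U, (∑ x ∈ W, adj G x y) ^ r ≤ 2 * r * (W.card : ℝ) ^ r + cs r * ed G W U := by
  have h := kst (sub G U) r r hr (sub_free hG U) (fun x => if x ∈ W then 1 else 0)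
    (fun x => by split_ifs <;> norm_num) (fun x => by split_ifs <;> norm_num)
  have e1 : ∀ y, nb (sub G U) (fun x => if x ∈ W then (1 : ℝ) else 0) y =
      if y ∈ U then ∑ x ∈ W, adj G x y else 0 := by
    intro y
    unfold nb
    simp only [adj_sub, mul_ite, mul_one, mul_zero]
    rw [← sum_filter]
    have : (univ.filter fun x => x ∈ W) = W := by ext; simp
    rw [this]
    by_cases hy : y ∈ U
    · rw [if_pos hy]
      apply sum_congr rfl; intro x hx
      rw [if_pos ⟨hW hx, hy⟩]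
    · rw [if_neg hy]
      apply sum_eq_zero; intro x _
      rw [if_neg (fun h => hy h.2)]
  simp only [e1] at h
  have e2 : (∑ x : V, if x ∈ W then (1 : ℝ) else 0) = W.card := by
    rw [sum_ite, sum_const_zero, add_zero, sum_const, nsmul_eq_mul, mul_one]
    congr 2
    ext; simp
  have e3 : (∑ y : V, if y ∈ U then ∑ x ∈ W, adj G x y else 0) = ed G W U := by
    rw [← sum_filter]
    have : (univ.filter fun x => x ∈ U) = U := by ext; simp
    rw [this, sum_comm]
    rfl
  have e4 : (∑ y : V, (if y ∈ U then ∑ x ∈ W, adj G x y else 0) ^ r) =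
      ∑ y ∈ U, (∑ x ∈ W, adj G x y) ^ r := by
    have : ∀ y : V, (if y ∈ U then ∑ x ∈ W, adj G x y else 0) ^ r =
        if y ∈ U then (∑ x ∈ W, adj G x y) ^ r else 0 := by
      intro y
      split_ifs
      · rfl
      · rw [zero_pow (by omega)]
    simp only [this]
    rw [← sum_filter]
    congr 1
    ext; simp
  rw [e2, e3, e4] at h
  exact h

/-- **the one-way inequality** -/
theorem oneway (G : SimpleGraph V) (r : ℕ) (hr : 2 ≤ r)
    (hG : (completeBipartiteGraph (Fin r) (Fin r)).Free G) (U : Finset V)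
    {K : Type} [Fintype K] [DecidableEq K] (code : V → K) (S : K → V → Prop)
    [∀ k y, Decidable (S k y)] :
    (∑ x ∈ U, ∑ y ∈ U, if S (code x) y then adj G x y else 0) ≤
      (2 * r : ℝ) ^ (1 / (r : ℝ)) * ((U.card : ℝ) ^ (1 / (r : ℝ)) *
        (∑ x ∈ U, ∑ y ∈ U, if S (code x) y then (1 : ℝ) else 0) ^ (1 - 1 / (r : ℝ))) +
      cs r ^ (1 / (r : ℝ)) * (ed G U U ^ (1 / (r : ℝ)) *
        ((Fintype.card K : ℝ) * U.card) ^ (1 - 1 / (r : ℝ))) := by
  have hr0 : (2 : ℝ) ≤ r := by exact_mod_cast hr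
  set θ : ℝ := 1 / (r : ℝ) with hθ
  have hθ0 : 0 < θ := by rw [hθ]; positivity
  have hθ1 : θ < 1 := by
    rw [hθ, div_lt_one (by linarith)]; linarith
  have hcs := one_le_cs r (by omega)
  -- the classes
  set W : K → Finset V := fun k => U.filter fun x => code x = k with hWdef
  set B : K → Finset V := fun k => U.filter fun y => S k y with hBdef
  have hWU : ∀ k, W k ⊆ U := fun k => filter_subset _ _
  have hfib : ∀ F : V → ℝ, ∑ x ∈ U, F x = ∑ k, ∑ x ∈ W k, F x := by
    intro F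
    rw [← sum_fiberwise U code F]
  -- a single class
  have hone : ∀ k, ∑ x ∈ W k, ∑ y ∈ B k, adj G x y ≤
      (2 * r : ℝ) ^ θ * (((W k).card : ℝ) * ((B k).card : ℝ) ^ (1 - θ)) +
        cs r ^ θ * (ed G (W k) U ^ θ * ((B k).card : ℝ) ^ (1 - θ)) := by
    intro k
    have hd0 : ∀ y, 0 ≤ ∑ x ∈ W k, adj G x y := fun y => sum_nonneg fun _ _ => adj_nonneg G _ _
    have h1 := holder (B k) (fun y => (∑ x ∈ W k, adj G x y) ^ r) (fun _ => (1 : ℝ))
      (fun y _ => pow_nonneg (hd0 y) _) (fun _ _ => by norm_num) θ hθ0 hθ1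
    have e1 : ∑ y ∈ B k, ((∑ x ∈ W k, adj G x y) ^ r) ^ θ * (1 : ℝ) ^ (1 - θ) =
        ∑ x ∈ W k, ∑ y ∈ B k, adj G x y := by
      rw [sum_comm]
      apply sum_congr rfl; intro y _
      rw [Real.one_rpow, mul_one, ← Real.rpow_natCast, ← Real.rpow_mul (hd0 y), hθ,
        mul_one_div_cancel (by linarith), Real.rpow_one]
    rw [e1] at h1
    have h2 : ∑ y ∈ B k, (∑ x ∈ W k, adj G x y) ^ r ≤
        2 * r * ((W k).card : ℝ) ^ r + cs r * ed G (W k) U := by
      refine le_trans ?_ (kst_sub G r (by omega) hG U (W k) (hWU k))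
      exact sum_le_sum_of_subset_of_nonneg (filter_subset _ _)
        (fun y _ _ => pow_nonneg (hd0 y) _)
    have h3 : (∑ y ∈ B k, (∑ x ∈ W k, adj G x y) ^ r) ^ θ ≤
        (2 * r : ℝ) ^ θ * ((W k).card : ℝ) + cs r ^ θ * ed G (W k) U ^ θ := by
      refine (Real.rpow_le_rpow (sum_nonneg fun y _ => pow_nonneg (hd0 y) _) h2 hθ0.le).trans ?_
      refine (add_rpow (by positivity) (mul_nonneg (by linarith) (ed_nonneg G _ _)) hθ0.le
        hθ1.le).trans (le_of_eq ?_)
      rw [Real.mul_rpow (by positivity) (by positivity),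
        Real.mul_rpow (by linarith) (ed_nonneg G _ _)]
      congr 2
      rw [← Real.rpow_natCast, ← Real.rpow_mul (by positivity), hθ,
        mul_one_div_cancel (by linarith), Real.rpow_one]
    have e2 : (∑ _y ∈ B k, (1 : ℝ)) = (B k).card := by simp
    rw [e2] at h1
    refine h1.trans ((mul_le_mul_of_nonneg_right h3 (by positivity)).trans (le_of_eq ?_))
    ring
  -- the sums over the classes
  have hL : (∑ x ∈ U, ∑ y ∈ U, if S (code x) y then adj G x y else 0) =
      ∑ k, ∑ x ∈ W k, ∑ y ∈ B k, adj G x y := by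
    rw [hfib]
    apply sum_congr rfl; intro k _
    apply sum_congr rfl; intro x hx
    have hx' : code x = k := (mem_filter.1 hx).2
    rw [hx', hBdef, sum_filter]
  have hR : (∑ x ∈ U, ∑ y ∈ U, if S (code x) y then (1 : ℝ) else 0) =
      ∑ k, ((W k).card : ℝ) * (B k).card := by
    rw [hfib]
    apply sum_congr rfl; intro k _
    have : ∀ x ∈ W k, (∑ y ∈ U, if S (code x) y then (1 : ℝ) else 0) = (B k).card := by
      intro x hx
      have hx' : code x = k := (mem_filter.1 hx).2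
      rw [hx', hBdef, ← sum_filter, sum_const, nsmul_eq_mul, mul_one]
    rw [sum_congr rfl this, sum_const, nsmul_eq_mul]
  have hcard : ∑ k, ((W k).card : ℝ) = U.card := by
    have := hfib (fun _ => 1)
    simp only [sum_const, nsmul_eq_mul, mul_one] at this
    exact this.symm
  have hed : ∑ k, ed G (W k) U = ed G U U := by
    unfold ed
    exact (hfib _).symm
  have hB : ∑ k, ((B k).card : ℝ) ≤ Fintype.card K * U.card := by
    have : ∀ k ∈ (univ : Finset K), ((B k).card : ℝ) ≤ U.card := fun k _ => by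
      exact_mod_cast card_le_card (filter_subset _ _)
    refine (sum_le_sum this).trans (le_of_eq ?_)
    rw [sum_const, nsmul_eq_mul, card_univ]
  have s1 : ∑ k, ((W k).card : ℝ) * ((B k).card : ℝ) ^ (1 - θ) ≤
      (U.card : ℝ) ^ θ * (∑ k, ((W k).card : ℝ) * (B k).card) ^ (1 - θ) := by
    have := holder univ (fun k => ((W k).card : ℝ)) (fun k => ((W k).card : ℝ) * (B k).card)
      (fun _ _ => by positivity) (fun _ _ => by positivity) θ hθ0 hθ1
    rw [hcard] at this
    refine le_trans (le_of_eq ?_) this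
    apply sum_congr rfl; intro k _
    rw [Real.mul_rpow (by positivity) (by positivity), ← mul_assoc]
    congr 1
    rw [← Real.rpow_add_of_nonneg (by positivity) hθ0.le (by linarith)]
    rw [add_sub_cancel, Real.rpow_one]
  have s2 : ∑ k, ed G (W k) U ^ θ * ((B k).card : ℝ) ^ (1 - θ) ≤
      ed G U U ^ θ * ((Fintype.card K : ℝ) * U.card) ^ (1 - θ) := by
    have := holder univ (fun k => ed G (W k) U) (fun k => ((B k).card : ℝ))
      (fun _ _ => ed_nonneg G _ _) (fun _ _ => by positivity) θ hθ0 hθ1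
    rw [hed] at this
    refine this.trans ?_
    apply mul_le_mul_of_nonneg_left _ (Real.rpow_nonneg (ed_nonneg G _ _) _)
    exact Real.rpow_le_rpow (sum_nonneg fun _ _ => by positivity) hB (by linarith)
  rw [hL, hR]
  calc ∑ k, ∑ x ∈ W k, ∑ y ∈ B k, adj G x y
      ≤ ∑ k, ((2 * r : ℝ) ^ θ * (((W k).card : ℝ) * ((B k).card : ℝ) ^ (1 - θ)) +
        cs r ^ θ * (ed G (W k) U ^ θ * ((B k).card : ℝ) ^ (1 - θ))) :=
        sum_le_sum fun k _ => hone k
    _ = (2 * r : ℝ) ^ θ * ∑ k, (((W k).card : ℝ) * ((B k).card : ℝ) ^ (1 - θ)) +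
        cs r ^ θ * ∑ k, (ed G (W k) U ^ θ * ((B k).card : ℝ) ^ (1 - θ)) := by
        rw [sum_add_distrib, ← mul_sum, ← mul_sum]
    _ ≤ _ := by
        apply add_le_add
        · exact mul_le_mul_of_nonneg_left s1 (by positivity)
        · exact mul_le_mul_of_nonneg_left s2 (by positivity)

end Pool.Agent.T9h97.RC
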