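import Pool.Agent.T9h97.RC.OW
import Pool.Agent.T9h97.RC.Cells

/-!
# Threshold queries are simulated by one message of the first player
-/

set_option autoImplicit false

open Finset

namespace Pool.Agent.T9h97.RC

open Pool.Agent.N376.MP (adj adj_nonneg adj_le)

/-- The answer on `x`, `y`: the second player asks for every `l : L` whether the number `a x i` of
the first player, `i = j y l`, is at most `b y l`, and then applies the Boolean function `Λ y` of
the answers. -/
noncomputable def accepts {V J L : Type} (a : V → J → ℝ) (j : V → L → J) (b : V → L → ℝ)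
    (Λ : V → (L → Bool) → Bool) (x y : V) : Bool :=
  Λ y fun l => decide (a x (j y l) ≤ b y l)

/-- the indicator of a proposition -/
noncomputable def chi (p : Prop) : ℝ := by classical exact if p then 1 else 0

lemma chi_true {p : Prop} (h : p) : chi p = 1 := by unfold chi; rw [if_pos h]

lemma chi_false {p : Prop} (h : ¬ p) : chi p = 0 := by unfold chi; rw [if_neg h]

lemma chi_nonneg (p : Prop) : 0 ≤ chi p := by unfold chi; split_ifs <;> norm_num

lemma chi_le_one (p : Prop) : chi p ≤ 1 := by unfold chi; split_ifs <;> norm_num

lemma chi_mono {p q : Prop} (h : p → q) : chi p ≤ chi q := by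
  by_cases hp : p
  · rw [chi_true hp, chi_true (h hp)]
  · rw [chi_false hp]; exact chi_nonneg q

variable {V : Type} [Fintype V] [DecidableEq V]

omit [Fintype V] in
/-- the simulation; the pairs on which it fails are few -/
theorem simulate (G : SimpleGraph V) (U : Finset V) {J L : Type} [Fintype J] [DecidableEq J]
    [Fintype L] [DecidableEq L] (a : V → J → ℝ) (j : V → L → J) (b : V → L → ℝ)
    (Λ : V → (L → Bool) → Bool) (m Q : ℕ) (hm : 1 ≤ m) (hL : Fintype.card L ≤ Q) (E0 : ℝ)
    (hE0 : ∀ X ⊆ U, ∀ Y ⊆ U, X.card + Y.card ≤ (U.card + m - 1) / m → ed G X Y ≤ E0) :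
    ∃ (code : V → (J → Fin (m * (Q + 1)))) (S : (J → Fin (m * (Q + 1))) → V → Prop),
      (∀ x ∈ U, ∀ y ∈ U, S (code x) y → accepts a j b Λ x y = true) ∧
      (∑ x ∈ U, ∑ y ∈ U, chi (accepts a j b Λ x y = true ∧ ¬ S (code x) y) * adj G x y) ≤
        (Fintype.card J * Fintype.card L * (m * (Q + 1)) : ℕ) * E0 := by
  classical
  set n := U.card with hn
  set len := (n + m - 1) / m with hlen
  set M := m * (Q + 1) with hM
  have hM0 : 0 < M := by rw [hM]; positivity
  have hlenm : n ≤ len * m := by
    have h1 : n + m - 1 < m * (len + 1) := by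
      rw [hlen]; exact Nat.lt_mul_div_succ _ (by omega)
    rw [Nat.mul_succ] at h1
    rw [Nat.mul_comm len m]
    omega
  -- the cells
  have hcell : ∀ i : J, ∃ (α : V → ℕ) (β : V × L → ℕ), (∀ x ∈ U, α x < M) ∧
      (∀ y ∈ (U ×ˢ (univ : Finset L)).filter (fun z => j z.1 z.2 = i), β y < M) ∧
      (∀ x ∈ U, ∀ y ∈ (U ×ˢ (univ : Finset L)).filter (fun z => j z.1 z.2 = i),
        α x < β y → a x i ≤ b y.1 y.2) ∧
      (∀ x ∈ U, ∀ y ∈ (U ×ˢ (univ : Finset L)).filter (fun z => j z.1 z.2 = i),
        β y < α x → b y.1 y.2 < a x i) ∧
      ∀ h, (U.filter fun x => α x = h).card +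
        (((U ×ˢ (univ : Finset L)).filter (fun z => j z.1 z.2 = i)).filter
          fun y => β y = h).card ≤ len := by
    intro i
    apply cells (fun x => a x i) (fun y : V × L => b y.1 y.2) len M U
    have h1 : ((U ×ˢ (univ : Finset L)).filter (fun z => j z.1 z.2 = i)).card ≤
        n * Fintype.card L := by
      refine (card_filter_le _ _).trans ?_
      rw [card_product, card_univ]
    calc U.card + ((U ×ˢ (univ : Finset L)).filter (fun z => j z.1 z.2 = i)).card
        ≤ n + n * Q := by
          have := Nat.mul_le_mul_left n hL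
          omega
      _ = n * (Q + 1) := by ring
      _ ≤ len * m * (Q + 1) := Nat.mul_le_mul_right _ hlenm
      _ = len * M := by rw [hM]; ring
  choose α β hα hβ hlt hgt hsmall using hcell
  -- code and simulated answer
  set code : V → (J → Fin M) := fun x i => if h : α i x < M then ⟨α i x, h⟩ else ⟨0, hM0⟩
    with hcodedef
  set S : (J → Fin M) → V → Prop := fun k y => (∀ l, (k (j y l) : ℕ) ≠ β (j y l) (y, l)) ∧
      Λ y (fun l => decide ((k (j y l) : ℕ) < β (j y l) (y, l))) = true with hSdef
  have hcode : ∀ x ∈ U, ∀ i, ((code x i : Fin M) : ℕ) = α i x := by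
    intro x hx i
    simp only [hcodedef]
    rw [dif_pos (hα i x hx)]
  have hans : ∀ x ∈ U, ∀ y ∈ U, (∀ l, α (j y l) x ≠ β (j y l) (y, l)) →
      Λ y (fun l => decide (α (j y l) x < β (j y l) (y, l))) = accepts a j b Λ x y := by
    intro x hx y hy h1
    unfold accepts
    congr 1
    funext l
    have hmem : (y, l) ∈ (U ×ˢ (univ : Finset L)).filter (fun z => j z.1 z.2 = j y l) := by
      simp [hy]
    rcases lt_trichotomy (α (j y l) x) (β (j y l) (y, l)) with h | h | h
    · have := hlt (j y l) x hx (y, l) hmem h
      simp only at this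
      rw [decide_eq_true this, decide_eq_true h]
    · exact absurd h (h1 l)
    · have := hgt (j y l) x hx (y, l) hmem h
      simp only at this
      rw [decide_eq_false (not_le.2 this), decide_eq_false (by omega)]
  have hS : ∀ x ∈ U, ∀ y, S (code x) y ↔ (∀ l, α (j y l) x ≠ β (j y l) (y, l)) ∧
      Λ y (fun l => decide (α (j y l) x < β (j y l) (y, l))) = true := by
    intro x hx y
    simp only [hSdef, hcode x hx]
  refine ⟨code, S, ?_, ?_⟩
  · intro x hx y hy h
    rw [hS x hx y] at h
    rw [← hans x hx y hy h.1]
    exact h.2
  · -- the bad pairs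
    set X : J → ℕ → Finset V := fun i h => U.filter fun x => α i x = h with hX
    set Y : L → J → ℕ → Finset V := fun l i h => U.filter fun y => j y l = i ∧ β i (y, l) = h
      with hY
    have hXY : ∀ l i h, ed G (X i h) (Y l i h) ≤ E0 := by
      intro l i h
      apply hE0 _ (filter_subset _ _) _ (filter_subset _ _)
      refine le_trans (Nat.add_le_add_left ?_ _) (hsmall i h)
      apply card_le_card_of_injOn (fun y => (y, l))
      · intro y hy
        have hy' := mem_filter.1 (mem_coe.1 hy)
        apply mem_coe.2
        simp only [mem_filter, mem_product, mem_univ, and_true]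
        exact ⟨⟨hy'.1, hy'.2.1⟩, hy'.2.2⟩
      · intro y _ y' _ h
        exact (Prod.mk.inj h).1
    have hpt : ∀ x ∈ U, ∀ y ∈ U,
        chi (accepts a j b Λ x y = true ∧ ¬ S (code x) y) * adj G x y ≤
        ∑ l : L, ∑ i : J, ∑ h ∈ range M, if x ∈ X i h ∧ y ∈ Y l i h then adj G x y else 0 := by
      intro x hx y hy
      have hnn : ∀ l ∈ (univ : Finset L), 0 ≤ ∑ i : J, ∑ h ∈ range M,
          if x ∈ X i h ∧ y ∈ Y l i h then adj G x y else 0 := by
        intro l _
        apply sum_nonneg; intro i _
        apply sum_nonneg; intro h _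
        split_ifs
        · exact adj_nonneg G x y
        · exact le_rfl
      by_cases hbad : accepts a j b Λ x y = true ∧ ¬ S (code x) y
      · rw [chi_true hbad, one_mul]
        have hex : ∃ l, α (j y l) x = β (j y l) (y, l) := by
          by_contra hno
          push Not at hno
          apply hbad.2
          rw [hS x hx y]
          exact ⟨hno, (hans x hx y hy hno).trans hbad.1⟩
        obtain ⟨l, hl⟩ := hex
        have h1 := single_le_sum hnn (mem_univ l)
        refine le_trans ?_ h1
        have h2 := single_le_sum (f := fun i => ∑ h ∈ range M,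
          if x ∈ X i h ∧ y ∈ Y l i h then adj G x y else 0) (s := univ) (fun i _ =>
            sum_nonneg fun h _ => by
              split_ifs
              · exact adj_nonneg G x y
              · exact le_rfl) (mem_univ (j y l))
        refine le_trans ?_ h2
        have h3 := single_le_sum (f := fun h =>
          if x ∈ X (j y l) h ∧ y ∈ Y l (j y l) h then adj G x y else 0) (s := range M) (fun h _ => by
              split_ifs
              · exact adj_nonneg G x y
              · exact le_rfl) (mem_range.2 (hα (j y l) x hx))
        refine le_trans ?_ h3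
        have : x ∈ X (j y l) (α (j y l) x) ∧ y ∈ Y l (j y l) (α (j y l) x) := by
          constructor
          · simp [hX, hx]
          · rw [hY, mem_filter]
            exact ⟨hy, rfl, hl.symm⟩
        simp only [if_pos this]
        exact le_rfl
      · rw [chi_false hbad, zero_mul]
        exact sum_nonneg hnn
    calc _ ≤ ∑ x ∈ U, ∑ y ∈ U, ∑ l : L, ∑ i : J, ∑ h ∈ range M,
          (if x ∈ X i h ∧ y ∈ Y l i h then adj G x y else 0) :=
          sum_le_sum fun x hx => sum_le_sum fun y hy => hpt x hx y hy
      _ = ∑ l : L, ∑ i : J, ∑ h ∈ range M, ed G (X i h) (Y l i h) := by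
          have e1 : ∀ x ∈ U, ∑ y ∈ U, ∑ l : L, ∑ i : J, ∑ h ∈ range M,
              (if x ∈ X i h ∧ y ∈ Y l i h then adj G x y else 0) =
              ∑ l : L, ∑ i : J, ∑ h ∈ range M, ∑ y ∈ U,
                (if x ∈ X i h ∧ y ∈ Y l i h then adj G x y else 0) := by
            intro x _
            rw [sum_comm]
            apply sum_congr rfl; intro l _
            rw [sum_comm]
            apply sum_congr rfl; intro i _
            rw [sum_comm]
          rw [sum_congr rfl e1, sum_comm]
          apply sum_congr rfl; intro l _
          rw [sum_comm]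
          apply sum_congr rfl; intro i _
          rw [sum_comm]
          apply sum_congr rfl; intro h _
          unfold ed
          have e2 : ∀ x ∈ U, (∑ y ∈ U, if x ∈ X i h ∧ y ∈ Y l i h then adj G x y else 0) =
              if x ∈ X i h then ∑ y ∈ Y l i h, adj G x y else 0 := by
            intro x _
            by_cases hx : x ∈ X i h
            · simp only [hx, true_and, if_true]
              rw [← sum_filter]
              congr 1
              ext y
              simp [hY]
            · simp [hx]
          rw [sum_congr rfl e2, ← sum_filter]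
          congr 1
          ext x
          simp [hX]
      _ ≤ ∑ l : L, ∑ i : J, ∑ h ∈ range M, E0 :=
          sum_le_sum fun l _ => sum_le_sum fun i _ => sum_le_sum fun h _ => hXY l i h
      _ = (Fintype.card J * Fintype.card L * (m * (Q + 1)) : ℕ) * E0 := by
          simp only [sum_const, card_univ, card_range, nsmul_eq_mul]
          push_cast
          rw [hM]
          push_cast
          ring

end Pool.Agent.T9h97.RC
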