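import Pool.Agent.T9h97.RC.Defs

/-!
# Splitting at the median, and the recursion
-/

set_option autoImplicit false

open Finset

namespace Pool.Agent.T9h97.RC

variable {V : Type} [DecidableEq V]

/-- the first `m` elements of the two sets, in the common order of the values -/
lemma split_at (a b : V → ℝ) (X Y : Finset V) (m : ℕ) (hm : m ≤ X.card + Y.card) :
    ∃ X₁ ⊆ X, ∃ Y₁ ⊆ Y, X₁.card + Y₁.card = m ∧
      (∀ x ∈ X₁, ∀ y ∈ Y \ Y₁, a x ≤ b y) ∧ (∀ x ∈ X \ X₁, ∀ y ∈ Y₁, b y < a x) := by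
  induction m with
  | zero =>
    exact ⟨∅, empty_subset _, ∅, empty_subset _, by simp, by simp, by simp⟩
  | succ m ih =>
    obtain ⟨X₁, hX, Y₁, hY, hc, h1, h2⟩ := ih (by omega)
    have hXc := card_sdiff_add_card_eq_card hX
    have hYc := card_sdiff_add_card_eq_card hY
    -- the two ways to add an element
    have addX : ∀ x₀ ∈ X \ X₁, (∀ y ∈ Y \ Y₁, a x₀ ≤ b y) →
        ∃ X₁ ⊆ X, ∃ Y₁ ⊆ Y, X₁.card + Y₁.card = m + 1 ∧
      (∀ x ∈ X₁, ∀ y ∈ Y \ Y₁, a x ≤ b y) ∧ (∀ x ∈ X \ X₁, ∀ y ∈ Y₁, b y < a x) := by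
      intro x₀ hx₀ h
      rw [mem_sdiff] at hx₀
      refine ⟨insert x₀ X₁, ?_, Y₁, hY, ?_, ?_, ?_⟩
      · exact insert_subset hx₀.1 hX
      · rw [card_insert_of_notMem hx₀.2]; omega
      · intro x hx y hy
        rcases mem_insert.1 hx with rfl | hx
        · exact h y hy
        · exact h1 x hx y hy
      · intro x hx y hy
        rw [mem_sdiff, mem_insert, not_or] at hx
        exact h2 x (mem_sdiff.2 ⟨hx.1, hx.2.2⟩) y hy
    have addY : ∀ y₀ ∈ Y \ Y₁, (∀ x ∈ X \ X₁, b y₀ < a x) →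
        ∃ X₁ ⊆ X, ∃ Y₁ ⊆ Y, X₁.card + Y₁.card = m + 1 ∧
      (∀ x ∈ X₁, ∀ y ∈ Y \ Y₁, a x ≤ b y) ∧ (∀ x ∈ X \ X₁, ∀ y ∈ Y₁, b y < a x) := by
      intro y₀ hy₀ h
      rw [mem_sdiff] at hy₀
      refine ⟨X₁, hX, insert y₀ Y₁, ?_, ?_, ?_, ?_⟩
      · exact insert_subset hy₀.1 hY
      · rw [card_insert_of_notMem hy₀.2]; omega
      · intro x hx y hy
        rw [mem_sdiff, mem_insert, not_or] at hy
        exact h1 x hx y (mem_sdiff.2 ⟨hy.1, hy.2.2⟩)
      · intro x hx y hy
        rcases mem_insert.1 hy with rfl | hy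
        · exact h x hx
        · exact h2 x hx y hy
    rcases (X \ X₁).eq_empty_or_nonempty with hXe | hXn
    · have : (Y \ Y₁).Nonempty := by
        rw [← card_pos]
        rw [hXe, card_empty] at hXc
        omega
      obtain ⟨y₀, hy₀, -⟩ := exists_min_image (Y \ Y₁) b this
      refine addY y₀ hy₀ ?_
      intro x hx
      rw [hXe] at hx
      exact absurd hx (notMem_empty _)
    · obtain ⟨x₀, hx₀, hx₀min⟩ := exists_min_image (X \ X₁) a hXn
      by_cases h : ∀ y ∈ Y \ Y₁, a x₀ ≤ b y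
      · exact addX x₀ hx₀ h
      · push Not at h
        obtain ⟨y, hy, hyx⟩ := h
        refine addY y hy ?_
        intro x hx
        exact lt_of_lt_of_le hyx (hx₀min x hx)

/-- the sum of `ω` over the accepted pairs -/
noncomputable def acc (ω : V → V → ℝ) (P : Prot V) (X Y : Finset V) : ℝ :=
  ∑ x ∈ X, ∑ y ∈ Y, if P.out x y = true then ω x y else 0

/-- rectangles of accepted pairs have a small sum -/
def Rect (ω : V → V → ℝ) (D : ℝ) (P : Prot V) (X Y : Finset V) : Prop :=
  ∀ A ⊆ X, ∀ B ⊆ Y, (∀ x ∈ A, ∀ y ∈ B, P.out x y = true) →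
    ∑ x ∈ A, ∑ y ∈ B, ω x y ≤ D * (A.card + B.card)

omit [DecidableEq V] in
lemma acc_congr (ω : V → V → ℝ) (P Q : Prot V) (X Y : Finset V)
    (h : ∀ x ∈ X, ∀ y ∈ Y, P.out x y = Q.out x y) : acc ω P X Y = acc ω Q X Y := by
  unfold acc
  apply sum_congr rfl; intro x hx
  apply sum_congr rfl; intro y hy
  rw [h x hx y hy]

omit [DecidableEq V] in
lemma Rect.congr {ω : V → V → ℝ} {D : ℝ} {P Q : Prot V} {X Y X' Y' : Finset V}
    (h : Rect ω D P X Y) (hX : X' ⊆ X) (hY : Y' ⊆ Y)
    (hPQ : ∀ x ∈ X', ∀ y ∈ Y', P.out x y = Q.out x y) : Rect ω D Q X' Y' := by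
  intro A hA B hB hacc
  apply h A (hA.trans hX) B (hB.trans hY)
  intro x hx y hy
  rw [hPQ x (hA hx) y (hB hy)]
  exact hacc x hx y hy

lemma acc_split_left (ω : V → V → ℝ) (P : Prot V) {X X₁ : Finset V} (h : X₁ ⊆ X) (Y : Finset V) :
    acc ω P X Y = acc ω P X₁ Y + acc ω P (X \ X₁) Y := by
  unfold acc
  rw [add_comm, sum_sdiff h]

lemma acc_split_right (ω : V → V → ℝ) (P : Prot V) (X : Finset V) {Y Y₁ : Finset V} (h : Y₁ ⊆ Y) :
    acc ω P X Y = acc ω P X Y₁ + acc ω P X (Y \ Y₁) := by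
  unfold acc
  rw [← sum_add_distrib]
  apply sum_congr rfl; intro x _
  rw [add_comm, sum_sdiff h]

/-- the binomial coefficient in the bound -/
def bin (k c : ℕ) : ℕ := (k + c).choose c

lemma bin_mono {k c c' : ℕ} (h : c ≤ c') : bin k c ≤ bin k c' := by
  unfold bin
  rw [← Nat.choose_symm_of_eq_add (show k + c = k + c from rfl),
    ← Nat.choose_symm_of_eq_add (show k + c' = k + c' from rfl)]
  exact Nat.choose_le_choose k (by omega)

lemma one_le_bin (k c : ℕ) : 1 ≤ bin k c := by
  unfold bin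
  exact Nat.choose_pos (by omega)

lemma bin_succ (k c : ℕ) : bin (k + 1) (c + 1) = bin k (c + 1) + bin (k + 1) c := by
  unfold bin
  have h1 : k + 1 + (c + 1) = (k + c + 1) + 1 := by ring
  have h2 : k + (c + 1) = k + c + 1 := by ring
  have h3 : k + 1 + c = k + c + 1 := by ring
  rw [h1, h2, h3, Nat.choose_succ_succ]
  ring

/-- **the recursion** -/
theorem acc_le (ω : V → V → ℝ) (D : ℝ) (hD : 0 ≤ D) (P : Prot V) :
    ∀ (k : ℕ) (X Y : Finset V), X.card + Y.card ≤ 2 ^ k → Rect ω D P X Y →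
      acc ω P X Y ≤ D * (2 ^ P.bits * bin k P.comps) * (X.card + Y.card) := by
  induction P with
  | ans v =>
    intro k X Y _ hR
    have h0 : (0 : ℝ) ≤ D * (2 ^ (Prot.ans v : Prot V).bits * bin k (Prot.ans v : Prot V).comps) *
        (X.card + Y.card) := by positivity
    cases v with
    | false =>
      unfold acc
      simp only [Prot.out, Bool.false_eq_true, if_false, sum_const_zero]
      exact h0
    | true =>
      have := hR X subset_rfl Y subset_rfl (fun _ _ _ _ => rfl)
      unfold acc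
      simp only [Prot.out, if_true, Prot.bits, Prot.comps, pow_zero, bin, add_zero,
        Nat.choose_zero_right, Nat.cast_one, mul_one]
      exact this
  | alice f P Q ihP ihQ =>
    intro k X Y hXY hR
    set X₁ := X.filter (fun x => f x = true) with hX₁
    have hs : X₁ ⊆ X := filter_subset _ _
    have hc := card_sdiff_add_card_eq_card hs
    rw [acc_split_left ω _ hs]
    have e1 : ∀ x ∈ X₁, ∀ y ∈ Y, (Prot.alice f P Q).out x y = P.out x y := by
      intro x hx y _
      have : f x = true := (mem_filter.1 hx).2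
      simp [Prot.out, this]
    have e2 : ∀ x ∈ X \ X₁, ∀ y ∈ Y, (Prot.alice f P Q).out x y = Q.out x y := by
      intro x hx y _
      rw [mem_sdiff, hX₁, mem_filter, not_and] at hx
      have : ¬ f x = true := hx.2 hx.1
      simp [Prot.out, this]
    rw [acc_congr ω _ P X₁ Y e1, acc_congr ω _ Q (X \ X₁) Y e2]
    have h1 := ihP k X₁ Y (by omega) (hR.congr hs subset_rfl e1)
    have h2 := ihQ k (X \ X₁) Y (by omega) (hR.congr sdiff_subset subset_rfl e2)
    have hcR : ((X \ X₁).card : ℝ) + X₁.card = X.card := by exact_mod_cast hc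
    set β := max P.bits Q.bits with hβ
    set γ := max P.comps Q.comps with hγ
    have hP : (2 : ℝ) ^ P.bits * bin k P.comps ≤ 2 ^ β * bin k γ := by
      apply mul_le_mul
      · exact pow_le_pow_right₀ (by norm_num) (le_max_left _ _)
      · exact_mod_cast bin_mono (le_max_left _ _)
      · positivity
      · positivity
    have hQ : (2 : ℝ) ^ Q.bits * bin k Q.comps ≤ 2 ^ β * bin k γ := by
      apply mul_le_mul
      · exact pow_le_pow_right₀ (by norm_num) (le_max_right _ _)
      · exact_mod_cast bin_mono (le_max_right _ _)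
      · positivity
      · positivity
    have h1' : acc ω P X₁ Y ≤ D * (2 ^ β * bin k γ) * (X₁.card + Y.card) :=
      h1.trans (mul_le_mul_of_nonneg_right (mul_le_mul_of_nonneg_left hP hD) (by positivity))
    have h2' : acc ω Q (X \ X₁) Y ≤ D * (2 ^ β * bin k γ) * ((X \ X₁).card + Y.card) :=
      h2.trans (mul_le_mul_of_nonneg_right (mul_le_mul_of_nonneg_left hQ hD) (by positivity))
    have e3 : D * (2 ^ (Prot.alice f P Q).bits * (bin k (Prot.alice f P Q).comps : ℝ)) =
        2 * (D * (2 ^ β * bin k γ)) := by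
      simp only [Prot.bits, Prot.comps, ← hβ, ← hγ]; ring
    rw [e3]
    have h0 : 0 ≤ D * (2 ^ β * (bin k γ : ℝ)) := by positivity
    have h3 : 0 ≤ D * (2 ^ β * (bin k γ : ℝ)) * X.card := by positivity
    calc acc ω P X₁ Y + acc ω Q (X \ X₁) Y
        ≤ D * (2 ^ β * bin k γ) * (X₁.card + Y.card) +
          D * (2 ^ β * bin k γ) * ((X \ X₁).card + Y.card) := add_le_add h1' h2'
      _ = D * (2 ^ β * bin k γ) * (((X \ X₁).card + X₁.card) + 2 * Y.card) := by ring
      _ = D * (2 ^ β * bin k γ) * (X.card + 2 * Y.card) := by rw [hcR]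
      _ ≤ 2 * (D * (2 ^ β * bin k γ)) * (X.card + Y.card) := by linarith
  | bob g P Q ihP ihQ =>
    intro k X Y hXY hR
    set Y₁ := Y.filter (fun y => g y = true) with hY₁
    have hs : Y₁ ⊆ Y := filter_subset _ _
    have hc := card_sdiff_add_card_eq_card hs
    rw [acc_split_right ω _ X hs]
    have e1 : ∀ x ∈ X, ∀ y ∈ Y₁, (Prot.bob g P Q).out x y = P.out x y := by
      intro x _ y hy
      have : g y = true := (mem_filter.1 hy).2
      simp [Prot.out, this]
    have e2 : ∀ x ∈ X, ∀ y ∈ Y \ Y₁, (Prot.bob g P Q).out x y = Q.out x y := by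
      intro x _ y hy
      rw [mem_sdiff, hY₁, mem_filter, not_and] at hy
      have : ¬ g y = true := hy.2 hy.1
      simp [Prot.out, this]
    rw [acc_congr ω _ P X Y₁ e1, acc_congr ω _ Q X (Y \ Y₁) e2]
    have h1 := ihP k X Y₁ (by omega) (hR.congr subset_rfl hs e1)
    have h2 := ihQ k X (Y \ Y₁) (by omega) (hR.congr subset_rfl sdiff_subset e2)
    have hcR : ((Y \ Y₁).card : ℝ) + Y₁.card = Y.card := by exact_mod_cast hc
    set β := max P.bits Q.bits with hβ
    set γ := max P.comps Q.comps with hγ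
    have hP : (2 : ℝ) ^ P.bits * bin k P.comps ≤ 2 ^ β * bin k γ := by
      apply mul_le_mul
      · exact pow_le_pow_right₀ (by norm_num) (le_max_left _ _)
      · exact_mod_cast bin_mono (le_max_left _ _)
      · positivity
      · positivity
    have hQ : (2 : ℝ) ^ Q.bits * bin k Q.comps ≤ 2 ^ β * bin k γ := by
      apply mul_le_mul
      · exact pow_le_pow_right₀ (by norm_num) (le_max_right _ _)
      · exact_mod_cast bin_mono (le_max_right _ _)
      · positivity
      · positivity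
    have h1' : acc ω P X Y₁ ≤ D * (2 ^ β * bin k γ) * (X.card + Y₁.card) :=
      h1.trans (mul_le_mul_of_nonneg_right (mul_le_mul_of_nonneg_left hP hD) (by positivity))
    have h2' : acc ω Q X (Y \ Y₁) ≤ D * (2 ^ β * bin k γ) * (X.card + (Y \ Y₁).card) :=
      h2.trans (mul_le_mul_of_nonneg_right (mul_le_mul_of_nonneg_left hQ hD) (by positivity))
    have e3 : D * (2 ^ (Prot.bob g P Q).bits * (bin k (Prot.bob g P Q).comps : ℝ)) =
        2 * (D * (2 ^ β * bin k γ)) := by
      simp only [Prot.bits, Prot.comps, ← hβ, ← hγ]; ring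
    rw [e3]
    have h0 : 0 ≤ D * (2 ^ β * (bin k γ : ℝ)) := by positivity
    have h3 : 0 ≤ D * (2 ^ β * (bin k γ : ℝ)) * Y.card := by positivity
    calc acc ω P X Y₁ + acc ω Q X (Y \ Y₁)
        ≤ D * (2 ^ β * bin k γ) * (X.card + Y₁.card) +
          D * (2 ^ β * bin k γ) * (X.card + (Y \ Y₁).card) := add_le_add h1' h2'
      _ = D * (2 ^ β * bin k γ) * (((Y \ Y₁).card + Y₁.card) + 2 * X.card) := by ring
      _ = D * (2 ^ β * bin k γ) * (Y.card + 2 * X.card) := by rw [hcR]
      _ ≤ 2 * (D * (2 ^ β * bin k γ)) * (X.card + Y.card) := by linarith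
  | cmp a b P Q ihP ihQ =>
    set β := max P.bits Q.bits with hβ
    set γ := max P.comps Q.comps with hγ
    have eb : (Prot.cmp a b P Q).bits = β := rfl
    have ec : (Prot.cmp a b P Q).comps = γ + 1 := rfl
    rw [eb, ec]
    intro k
    induction k with
    | zero =>
      intro X Y hXY _
      have h0 : (0 : ℝ) ≤ D * (2 ^ β * bin 0 (γ + 1)) * (X.card + Y.card) := by positivity
      refine le_trans (le_of_eq ?_) h0
      unfold acc
      rcases X.eq_empty_or_nonempty with rfl | hX
      · simp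
      · have : 0 < X.card := card_pos.2 hX
        have hY : Y.card = 0 := by simp at hXY; omega
        rw [card_eq_zero] at hY
        subst hY
        simp
    | succ k ih =>
      intro X Y hXY hR
      -- the median
      obtain ⟨X₁, hX, Y₁, hY, hm, hyes, hno⟩ := split_at a b X Y ((X.card + Y.card) / 2) (by omega)
      have hXc := card_sdiff_add_card_eq_card hX
      have hYc := card_sdiff_add_card_eq_card hY
      have e1 : ∀ x ∈ X₁, ∀ y ∈ Y \ Y₁, (Prot.cmp a b P Q).out x y = P.out x y := by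
        intro x hx y hy
        simp [Prot.out, hyes x hx y hy]
      have e2 : ∀ x ∈ X \ X₁, ∀ y ∈ Y₁, (Prot.cmp a b P Q).out x y = Q.out x y := by
        intro x hx y hy
        simp [Prot.out, not_le.2 (hno x hx y hy)]
      rw [acc_split_left ω _ hX, acc_split_right ω _ X₁ hY, acc_split_right ω _ (X \ X₁) hY,
        acc_congr ω _ P X₁ (Y \ Y₁) e1, acc_congr ω _ Q (X \ X₁) Y₁ e2]
      have hll := ih X₁ Y₁ (by rw [pow_succ] at hXY; omega) (hR.congr hX hY (fun _ _ _ _ => rfl))
      have huu := ih (X \ X₁) (Y \ Y₁) (by rw [pow_succ] at hXY; omega)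
        (hR.congr sdiff_subset sdiff_subset (fun _ _ _ _ => rfl))
      have hlu := ihP (k + 1) X₁ (Y \ Y₁) (by omega) (hR.congr hX sdiff_subset e1)
      have hul := ihQ (k + 1) (X \ X₁) Y₁ (by omega) (hR.congr sdiff_subset hY e2)
      have hP : (2 : ℝ) ^ P.bits * bin (k + 1) P.comps ≤ 2 ^ β * bin (k + 1) γ := by
        apply mul_le_mul
        · exact pow_le_pow_right₀ (by norm_num) (le_max_left _ _)
        · exact_mod_cast bin_mono (le_max_left _ _)
        · positivity
        · positivity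
      have hQ : (2 : ℝ) ^ Q.bits * bin (k + 1) Q.comps ≤ 2 ^ β * bin (k + 1) γ := by
        apply mul_le_mul
        · exact pow_le_pow_right₀ (by norm_num) (le_max_right _ _)
        · exact_mod_cast bin_mono (le_max_right _ _)
        · positivity
        · positivity
      have hlu' : acc ω P X₁ (Y \ Y₁) ≤ D * (2 ^ β * bin (k + 1) γ) * (X₁.card + (Y \ Y₁).card) :=
        hlu.trans (mul_le_mul_of_nonneg_right (mul_le_mul_of_nonneg_left hP hD) (by positivity))
      have hul' : acc ω Q (X \ X₁) Y₁ ≤ D * (2 ^ β * bin (k + 1) γ) * ((X \ X₁).card + Y₁.card) :=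
        hul.trans (mul_le_mul_of_nonneg_right (mul_le_mul_of_nonneg_left hQ hD) (by positivity))
      have hbin : (bin (k + 1) (γ + 1) : ℝ) = bin k (γ + 1) + bin (k + 1) γ := by
        exact_mod_cast bin_succ k γ
      have hXR : (X.card : ℝ) = (X \ X₁).card + X₁.card := by exact_mod_cast hXc.symm
      have hYR : (Y.card : ℝ) = (Y \ Y₁).card + Y₁.card := by exact_mod_cast hYc.symm
      rw [hbin, hXR, hYR]
      calc _ ≤ (D * (2 ^ β * bin k (γ + 1)) * (X₁.card + Y₁.card) +
            D * (2 ^ β * bin (k + 1) γ) * (X₁.card + (Y \ Y₁).card)) +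
            (D * (2 ^ β * bin (k + 1) γ) * ((X \ X₁).card + Y₁.card) +
            D * (2 ^ β * bin k (γ + 1)) * ((X \ X₁).card + (Y \ Y₁).card)) :=
            add_le_add (add_le_add hll hlu') (add_le_add hul' huu)
        _ = _ := by ring

end Pool.Agent.T9h97.RC
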