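import Pool.Agent.T9h97.RC.Avg
import Pool.Agent.T9h97.RC.Num
import Pool.Agent.T9h97.RC.DetAsy

/-!
# Graphs without `K_{r,r}` with random threshold representations
-/

set_option autoImplicit false

open Finset

namespace Pool.Agent.T9h97.RC

open Pool.Agent.N376.MP (adj cs adj_nonneg adj_le one_le_cs)

/-- the constant -/
noncomputable def cD (r : ℕ) : ℝ := (8 * r : ℝ) ^ r + 16 * cs r ^ 2

lemma cD_pos (r : ℕ) (hr : 1 ≤ r) : 0 < cD r := by
  have := one_le_cs r hr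
  have h2 : (0 : ℝ) < r := by exact_mod_cast hr
  unfold cD
  positivity

variable {V : Type} [Fintype V] [DecidableEq V]

omit [Fintype V] [DecidableEq V] in
lemma ed_mono (G : SimpleGraph V) {A A' B B' : Finset V} (hA : A ⊆ A') (hB : B ⊆ B') :
    ed G A B ≤ ed G A' B' := by
  unfold ed
  calc ∑ x ∈ A, ∑ y ∈ B, adj G x y ≤ ∑ x ∈ A, ∑ y ∈ B', adj G x y :=
        sum_le_sum fun x _ => sum_le_sum_of_subset_of_nonneg hB fun _ _ _ => adj_nonneg G _ _
    _ ≤ _ := sum_le_sum_of_subset_of_nonneg hA fun _ _ _ =>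
        sum_nonneg fun _ _ => adj_nonneg G _ _

/-- the bound of Kővári, Sós and Turán -/
lemma kst_ed (G : SimpleGraph V) (r : ℕ) (hr : 2 ≤ r)
    (hG : (completeBipartiteGraph (Fin r) (Fin r)).Free G) (U : Finset V) (hU : U.Nonempty)
    (hf : 0 < ed G U U) :
    ed G U U ≤ 2 * cD r * (U.card : ℝ) ^ (2 - 1 / (r : ℝ)) := by
  classical
  have hr0 : (2 : ℝ) ≤ r := by exact_mod_cast hr
  have hcs := one_le_cs r (by omega)
  have hθ1 : 1 / (r : ℝ) ≤ 1 := by rw [div_le_one (by linarith)]; linarith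
  have hn1 : (1 : ℝ) ≤ U.card := by exact_mod_cast card_pos.2 hU
  have h := oneway G r hr hG U (K := Unit) (fun _ => ()) (fun _ _ => True)
  simp only [if_true, Fintype.card_unit, Nat.cast_one, sum_const, nsmul_eq_mul, mul_one] at h
  have e : (∑ x ∈ U, ∑ y ∈ U, adj G x y) = ed G U U := rfl
  rw [e] at h
  have h2 := numA r hr (cs r) U.card (ed G U U) 1 0 hcs hn1 hf le_rfl (by
    rw [pow_zero, one_mul, pow_zero, one_mul]
    refine h.trans ?_
    apply add_le_add_left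
    apply mul_le_mul_of_nonneg_left _ (by positivity)
    apply mul_le_mul_of_nonneg_left _ (by positivity)
    apply Real.rpow_le_rpow (by positivity) _ (by linarith)
    have : (0 : ℝ) ≤ U.card := by positivity
    nlinarith)
  have h3 : (2 : ℝ) ^ (-((0 : ℕ) : ℝ) / 8) = 1 := by norm_num
  rw [h3] at h2
  simp only [one_mul, mul_zero, add_zero, pow_zero] at h2
  have h4 : (U.card : ℝ) ≤ (U.card : ℝ) ^ (2 - 1 / (r : ℝ)) := by
    calc (U.card : ℝ) = (U.card : ℝ) ^ (1 : ℝ) := (Real.rpow_one _).symm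
      _ ≤ _ := Real.rpow_le_rpow_of_exponent_le hn1 (by linarith)
  have h5 := cD_pos r (by omega)
  refine h2.trans ?_
  have : (8 * r : ℝ) ^ r + 16 * cs r ^ 2 = cD r := rfl
  rw [this]
  nlinarith

/-- the main case -/
lemma main_case (G : SimpleGraph V) (r : ℕ) (hr : 2 ≤ r)
    (hG : (completeBipartiteGraph (Fin r) (Fin r)).Free G) (U : Finset V) (N Q : ℕ)
    (hN : 1 ≤ N) (hQ : 1 ≤ Q) (hrep : ThrRep G N Q) (Φ δ : ℝ) (hΦ : 0 < Φ)
    (hδ : δ = 1 / (800 * (r + N * Real.logb 2 (2 * N * Q))))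
    (hU : ed G U U = Φ * (U.card : ℝ) ^ (2 - 1 / (r : ℝ) - δ))
    (hher : ∀ W : Finset V, ed G W W ≤ Φ * (W.card : ℝ) ^ (2 - 1 / (r : ℝ) - δ))
    (hnm : (240 * N * Q ^ 2) ^ 3 ≤ U.card) : Φ ≤ 4 * cD r := by
  have hr0 : (2 : ℝ) ≤ r := by exact_mod_cast hr
  have hN0 : (1 : ℝ) ≤ N := by exact_mod_cast hN
  have hQ0 : (1 : ℝ) ≤ Q := by exact_mod_cast hQ
  have hcs := one_le_cs r (by omega)
  have hcD := cD_pos r (by omega)
  set θ : ℝ := 1 / (r : ℝ) with hθ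
  have hθ0 : 0 < θ := by rw [hθ]; positivity
  have hθ2 : θ ≤ 1 / 2 := by
    rw [hθ, div_le_div_iff₀ (by linarith) (by norm_num)]; linarith
  set lam : ℝ := Real.logb 2 (2 * N * Q) with hlam
  have hB2 : (2 : ℝ) ≤ 2 * N * Q := by nlinarith
  have hlam1 : 1 ≤ lam := by
    rw [hlam, Real.le_logb_iff_rpow_le (by norm_num) (by linarith), Real.rpow_one]
    exact hB2
  set Y : ℝ := r + N * lam with hY
  have hY3 : 3 ≤ Y := by rw [hY]; nlinarith
  have hδ0 : 0 < δ := by rw [hδ]; positivity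
  have hδ1 : δ ≤ 1 / 100 := by
    rw [hδ, div_le_div_iff₀ (by linarith) (by norm_num)]; linarith
  -- the parameters
  set m : ℕ := (240 * N * Q ^ 2) ^ 3 with hm
  have hNQ : 1 ≤ N * Q ^ 2 := Nat.mul_pos hN (pow_pos hQ 2)
  have hm1 : 1 ≤ m := by
    rw [hm]; exact Nat.one_le_pow _ _ (by nlinarith)
  set n : ℝ := (U.card : ℝ) with hn
  have hmn : (m : ℝ) ≤ n := by rw [hn]; exact_mod_cast hnm
  have hm1' : (1 : ℝ) ≤ m := by exact_mod_cast hm1
  have hm0 : (0 : ℝ) < m := by linarith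
  have hn1 : 1 ≤ n := by linarith
  have hn0 : 0 < n := by linarith
  have hf : 0 < ed G U U := by rw [hU]; positivity
  set γ : ℝ := 2 - θ - δ with hγ
  have hγ1 : 4 / 3 ≤ γ := by rw [hγ]; linarith
  have hγ2 : γ ≤ 2 := by rw [hγ]; linarith
  -- small rectangles
  set len : ℕ := (U.card + m - 1) / m with hlen
  have hlen2 : (len : ℝ) ≤ 2 * n / m := by
    rw [le_div_iff₀ hm0]
    have h1 : len * m ≤ U.card + m - 1 := Nat.div_mul_le_self _ _
    have h2 : ((len * m : ℕ) : ℝ) ≤ ((U.card + m - 1 : ℕ) : ℝ) := by exact_mod_cast h1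
    have h3 : ((U.card + m - 1 : ℕ) : ℝ) ≤ n + m := by
      have : U.card + m - 1 ≤ U.card + m := Nat.sub_le _ _
      have h4 : ((U.card + m - 1 : ℕ) : ℝ) ≤ ((U.card + m : ℕ) : ℝ) := by exact_mod_cast this
      push_cast at h4
      exact h4
    push_cast at h2
    linarith
  set E0 : ℝ := Φ * (len : ℝ) ^ γ with hE0def
  have hE00 : 0 ≤ E0 := by rw [hE0def]; positivity
  have hE0 : ∀ X ⊆ U, ∀ Y ⊆ U, X.card + Y.card ≤ len → ed G X Y ≤ E0 := by
    intro X _ Y _ hXY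
    have h1 : ed G X Y ≤ ed G (X ∪ Y) (X ∪ Y) := ed_mono G subset_union_left subset_union_right
    refine h1.trans ((hher (X ∪ Y)).trans ?_)
    apply mul_le_mul_of_nonneg_left _ hΦ.le
    apply Real.rpow_le_rpow (by positivity) _ (by linarith)
    exact_mod_cast (card_union_le _ _).trans hXY
  have hbad : ((N * Q * (m * (Q + 1)) : ℕ) : ℝ) * E0 ≤ ed G U U / 30 := by
    have h1 : (len : ℝ) ^ γ ≤ 4 * n ^ γ / (m : ℝ) ^ γ := by
      calc (len : ℝ) ^ γ ≤ (2 * n / m) ^ γ := Real.rpow_le_rpow (by positivity) hlen2 (by linarith)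
        _ = 2 ^ γ * n ^ γ / (m : ℝ) ^ γ := by
            rw [Real.div_rpow (by positivity) hm0.le, Real.mul_rpow (by norm_num) hn0.le]
        _ ≤ 4 * n ^ γ / (m : ℝ) ^ γ := by
            have : (2 : ℝ) ^ γ ≤ 4 := by
              calc (2 : ℝ) ^ γ ≤ 2 ^ (2 : ℝ) :=
                    Real.rpow_le_rpow_of_exponent_le (by norm_num) hγ2
                _ = 4 := by norm_num
            gcongr
    have h2 : (m : ℝ) * (240 * N * Q ^ 2) ≤ (m : ℝ) ^ γ := by
      have e1 : (m : ℝ) ^ (4 / 3 : ℝ) = (m : ℝ) * (240 * N * Q ^ 2) := by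
        have e2 : (m : ℝ) = (240 * N * Q ^ 2 : ℝ) ^ (3 : ℕ) := by rw [hm]; push_cast; ring
        have e3 : (m : ℝ) ^ (1 / 3 : ℝ) = 240 * N * Q ^ 2 := by
          rw [e2, ← Real.rpow_natCast, ← Real.rpow_mul (by positivity)]
          norm_num
        rw [show (4 / 3 : ℝ) = 1 + 1 / 3 by norm_num, Real.rpow_add hm0, Real.rpow_one, e3]
      rw [← e1]
      exact Real.rpow_le_rpow_of_exponent_le hm1' hγ1
    rw [hE0def, hU]
    push_cast
    have h3 : (0 : ℝ) < (m : ℝ) ^ γ := by positivity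
    have h4 : (0 : ℝ) < n ^ γ := by positivity
    calc (N : ℝ) * Q * (m * (Q + 1)) * (Φ * (len : ℝ) ^ γ)
        ≤ (N : ℝ) * Q * (m * (Q + 1)) * (Φ * (4 * n ^ γ / (m : ℝ) ^ γ)) := by gcongr
      _ = (4 * N * Q * (Q + 1) * m) / (m : ℝ) ^ γ * (Φ * n ^ γ) := by field_simp
      _ ≤ 1 / 30 * (Φ * n ^ γ) := by
          apply mul_le_mul_of_nonneg_right _ (by positivity)
          rw [div_le_iff₀ h3]
          have h5 : 4 * (N : ℝ) * Q * (Q + 1) * m ≤ 1 / 30 * ((m : ℝ) * (240 * N * Q ^ 2)) := by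
            have h6 : (Q : ℝ) + 1 ≤ 2 * Q := by linarith
            have h7 : 4 * (N : ℝ) * Q * (Q + 1) * m ≤ 4 * (N : ℝ) * Q * (2 * Q) * m := by gcongr
            refine h7.trans (le_of_eq (by ring))
          refine h5.trans ?_
          exact mul_le_mul_of_nonneg_left h2 (by norm_num)
      _ = Φ * n ^ γ / 30 := by ring
  -- the number of repetitions
  set t : ℕ := ⌊Real.logb 2 n / (100 * Y)⌋₊ with ht
  have hlog0 : 0 ≤ Real.logb 2 n := Real.logb_nonneg (by norm_num) hn1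
  have ht1 : (t : ℝ) ≤ Real.logb 2 n / (100 * Y) := Nat.floor_le (by positivity)
  have ht2 : Real.logb 2 n / (100 * Y) - 1 ≤ t := by
    have := Nat.lt_floor_add_one (Real.logb 2 n / (100 * Y))
    rw [← ht] at this
    linarith
  have hcore := core G r hr hG U N Q m t hm1 E0 hE00 hE0 hrep hf hbad
  have hM1 : (1 : ℝ) ≤ ((m * (Q + 1) : ℕ) : ℝ) := by
    exact_mod_cast Nat.mul_pos hm1 (by omega)
  have hnum := numA r hr (cs r) n (ed G U U) (((m * (Q + 1) : ℕ) : ℝ) ^ (N * t)) t hcs hn1 hf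
    (one_le_pow₀ hM1) hcore
  -- the size of the code
  have hMB : ((m * (Q + 1) : ℕ) : ℝ) ≤ (2 * N * Q : ℝ) ^ 25 := by
    rw [hm]
    push_cast
    have h6 : (Q : ℝ) + 1 ≤ 2 * Q := by linarith
    have hN3 : (N : ℝ) ^ 3 ≤ (N : ℝ) ^ 25 := pow_le_pow_right₀ hN0 (by norm_num)
    have hQ7 : (Q : ℝ) ^ 7 ≤ (Q : ℝ) ^ 25 := pow_le_pow_right₀ hQ0 (by norm_num)
    calc (240 * (N : ℝ) * (Q : ℝ) ^ 2) ^ 3 * ((Q : ℝ) + 1)
        ≤ (240 * (N : ℝ) * (Q : ℝ) ^ 2) ^ 3 * (2 * (Q : ℝ)) := by gcongr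
      _ = 27648000 * ((N : ℝ) ^ 3 * (Q : ℝ) ^ 7) := by ring
      _ ≤ 33554432 * ((N : ℝ) ^ 25 * (Q : ℝ) ^ 25) := by
          apply mul_le_mul (by norm_num) _ (by positivity) (by norm_num)
          exact mul_le_mul hN3 hQ7 (by positivity) (by positivity)
      _ = (2 * (N : ℝ) * (Q : ℝ)) ^ 25 := by ring
  have hBlam : (2 * N * Q : ℝ) = (2 : ℝ) ^ lam := by
    rw [hlam, Real.rpow_logb (by norm_num) (by norm_num) (by linarith)]
  have hκ : (2 : ℝ) ^ (r * t + 2 * t) * ((m * (Q + 1) : ℕ) : ℝ) ^ (N * t) ≤ n ^ (1 / 4 : ℝ) := by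
    calc (2 : ℝ) ^ (r * t + 2 * t) * ((m * (Q + 1) : ℕ) : ℝ) ^ (N * t)
        ≤ (2 : ℝ) ^ (r * t + 2 * t) * ((2 * N * Q : ℝ) ^ 25) ^ (N * t) := by gcongr
      _ = (2 : ℝ) ^ ((r : ℝ) * t + 2 * t + 25 * N * lam * t) := by
          have e1 : (2 : ℝ) ^ (r * t + 2 * t) = (2 : ℝ) ^ ((r : ℝ) * t + 2 * t) := by
            rw [← Real.rpow_natCast]; push_cast; rfl
          have e2 : ((2 * N * Q : ℝ) ^ 25) ^ (N * t) = (2 : ℝ) ^ (25 * N * lam * t) := by
            rw [hBlam, ← pow_mul, ← Real.rpow_natCast, ← Real.rpow_mul (by norm_num)]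
            congr 1
            push_cast
            ring
          rw [e1, e2, ← Real.rpow_add (by norm_num)]
      _ ≤ (2 : ℝ) ^ (Real.logb 2 n * (1 / 4)) := by
          apply Real.rpow_le_rpow_of_exponent_le (by norm_num)
          have h1 : (r : ℝ) * t + 2 * t + 25 * N * lam * t ≤ 25 * Y * t := by
            rw [hY]
            have : (0 : ℝ) ≤ t := by positivity
            nlinarith
          have h2 : 25 * Y * t ≤ 25 * Y * (Real.logb 2 n / (100 * Y)) := by gcongr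
          have h3 : 25 * Y * (Real.logb 2 n / (100 * Y)) = Real.logb 2 n * (1 / 4) := by
            field_simp
            ring
          linarith
      _ = n ^ (1 / 4 : ℝ) := by
          rw [Real.rpow_mul (by norm_num), Real.rpow_logb (by norm_num) (by norm_num) hn0]
  have ht8 : (2 : ℝ) ^ (-(t : ℝ) / 8) ≤ 2 * n ^ (-δ) := by
    calc (2 : ℝ) ^ (-(t : ℝ) / 8) ≤ (2 : ℝ) ^ (1 + Real.logb 2 n * (-δ)) := by
          apply Real.rpow_le_rpow_of_exponent_le (by norm_num)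
          have h1 : Real.logb 2 n / (100 * Y) = 8 * (Real.logb 2 n * δ) := by
            rw [hδ]; field_simp; ring
          rw [h1] at ht2
          linarith
      _ = 2 * n ^ (-δ) := by
          rw [Real.rpow_add (by norm_num), Real.rpow_one, Real.rpow_mul (by norm_num),
            Real.rpow_logb (by norm_num) (by norm_num) hn0]
  have h1 : (2 : ℝ) ^ (-(t : ℝ) / 8) * n ^ (2 - θ) ≤ 2 * n ^ γ := by
    calc (2 : ℝ) ^ (-(t : ℝ) / 8) * n ^ (2 - θ) ≤ 2 * n ^ (-δ) * n ^ (2 - θ) :=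
          mul_le_mul_of_nonneg_right ht8 (Real.rpow_nonneg hn0.le _)
      _ = 2 * n ^ γ := by
          rw [mul_assoc, ← Real.rpow_add hn0]
          congr 2
          rw [hγ]; ring
  have h2 : (2 : ℝ) ^ (r * t + 2 * t) * ((m * (Q + 1) : ℕ) : ℝ) ^ (N * t) * n ≤ n ^ γ := by
    calc _ ≤ n ^ (1 / 4 : ℝ) * n := mul_le_mul_of_nonneg_right hκ hn0.le
      _ = n ^ (1 / 4 + 1 : ℝ) := by rw [Real.rpow_add_one hn0.ne']
      _ ≤ n ^ γ := Real.rpow_le_rpow_of_exponent_le hn1 (by linarith)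
  have h3 : ed G U U ≤ cD r * (3 * n ^ γ) := by
    refine hnum.trans ?_
    have : (8 * r : ℝ) ^ r + 16 * cs r ^ 2 = cD r := rfl
    rw [this]
    apply mul_le_mul_of_nonneg_left _ hcD.le
    linarith
  rw [hU] at h3
  have h4 : (0 : ℝ) < n ^ γ := Real.rpow_pos_of_pos hn0 _
  have h5 : Φ ≤ 3 * cD r := by
    have : Φ * n ^ γ ≤ 3 * cD r * n ^ γ := by linarith
    exact le_of_mul_le_mul_right this h4
  linarith

/-- the case of a small set -/
lemma small_case (G : SimpleGraph V) (r : ℕ) (hr : 2 ≤ r)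
    (hG : (completeBipartiteGraph (Fin r) (Fin r)).Free G) (U : Finset V) (hUn : U.Nonempty)
    (N Q : ℕ) (hN : 1 ≤ N) (hQ : 1 ≤ Q) (Φ δ : ℝ) (hΦ : 0 < Φ)
    (hδ : δ = 1 / (800 * (r + N * Real.logb 2 (2 * N * Q))))
    (hU : ed G U U = Φ * (U.card : ℝ) ^ (2 - 1 / (r : ℝ) - δ))
    (hnm : U.card < (240 * N * Q ^ 2) ^ 3) : Φ ≤ 4 * cD r := by
  have hr0 : (2 : ℝ) ≤ r := by exact_mod_cast hr
  have hN0 : (1 : ℝ) ≤ N := by exact_mod_cast hN
  have hQ0 : (1 : ℝ) ≤ Q := by exact_mod_cast hQ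
  have hcD := cD_pos r (by omega)
  obtain ⟨n, hn⟩ : ∃ n : ℝ, n = (U.card : ℝ) := ⟨_, rfl⟩
  rw [← hn] at hU
  have hn1 : 1 ≤ n := by rw [hn]; exact_mod_cast card_pos.2 hUn
  have hn0 : 0 < n := by linarith
  have hf : 0 < ed G U U := by rw [hU]; exact mul_pos hΦ (Real.rpow_pos_of_pos hn0 _)
  have hk := kst_ed G r hr hG U hUn hf
  rw [hU, ← hn] at hk
  obtain ⟨lam, hlam⟩ : ∃ lam, lam = Real.logb 2 (2 * N * Q) := ⟨_, rfl⟩
  rw [← hlam] at hδ
  have hB2 : (2 : ℝ) ≤ 2 * N * Q := by nlinarith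
  have hlam1 : 1 ≤ lam := by
    rw [hlam, Real.le_logb_iff_rpow_le (by norm_num) (by linarith), Real.rpow_one]
    exact hB2
  have hBlam : (2 * N * Q : ℝ) = (2 : ℝ) ^ lam := by
    rw [hlam, Real.rpow_logb (by norm_num) (by norm_num) (by linarith)]
  have hY : (N : ℝ) * lam ≤ r + N * lam := by linarith
  have hNl : 0 < (N : ℝ) * lam := by positivity
  have hδ0 : 0 < δ := by rw [hδ]; positivity
  have hnB : n ≤ (2 * N * Q : ℝ) ^ 24 := by
    have h1 : n ≤ (240 * (N : ℝ) * (Q : ℝ) ^ 2) ^ 3 := by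
      rw [hn]; exact_mod_cast hnm.le
    refine h1.trans ?_
    have hN3 : (N : ℝ) ^ 3 ≤ (N : ℝ) ^ 24 := pow_le_pow_right₀ hN0 (by norm_num)
    have hQ7 : (Q : ℝ) ^ 6 ≤ (Q : ℝ) ^ 24 := pow_le_pow_right₀ hQ0 (by norm_num)
    calc (240 * (N : ℝ) * (Q : ℝ) ^ 2) ^ 3 = 13824000 * ((N : ℝ) ^ 3 * (Q : ℝ) ^ 6) := by ring
      _ ≤ 16777216 * ((N : ℝ) ^ 24 * (Q : ℝ) ^ 24) := by
          apply mul_le_mul (by norm_num) _ (by positivity) (by norm_num)
          exact mul_le_mul hN3 hQ7 (by positivity) (by positivity)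
      _ = (2 * (N : ℝ) * (Q : ℝ)) ^ 24 := by ring
  have hnδ : n ^ δ ≤ 2 := by
    calc n ^ δ ≤ ((2 * N * Q : ℝ) ^ 24) ^ δ := Real.rpow_le_rpow hn0.le hnB hδ0.le
      _ = (2 : ℝ) ^ (24 * lam * δ) := by
          have e1 : ((2 * N * Q : ℝ) ^ 24) = (2 : ℝ) ^ (24 * lam) := by
            rw [hBlam, ← Real.rpow_natCast, ← Real.rpow_mul (by norm_num)]
            congr 1
            push_cast
            ring
          rw [e1, ← Real.rpow_mul (by norm_num)]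
      _ ≤ (2 : ℝ) ^ (1 : ℝ) := by
          apply Real.rpow_le_rpow_of_exponent_le (by norm_num)
          rw [hδ, mul_one_div, div_le_one (by positivity)]
          nlinarith
      _ = 2 := Real.rpow_one 2
  have e : n ^ (2 - 1 / (r : ℝ)) = n ^ (2 - 1 / (r : ℝ) - δ) * n ^ δ := by
    rw [← Real.rpow_add hn0]; congr 1; ring
  rw [e] at hk
  have h4 : 0 < n ^ (2 - 1 / (r : ℝ) - δ) := Real.rpow_pos_of_pos hn0 _
  have h5 : Φ * n ^ (2 - 1 / (r : ℝ) - δ) ≤ 4 * cD r * n ^ (2 - 1 / (r : ℝ) - δ) := by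
    calc Φ * n ^ (2 - 1 / (r : ℝ) - δ) ≤ 2 * cD r * (n ^ (2 - 1 / (r : ℝ) - δ) * n ^ δ) := hk
      _ ≤ 2 * cD r * (n ^ (2 - 1 / (r : ℝ) - δ) * 2) := by gcongr
      _ = _ := by ring
  exact le_of_mul_le_mul_right h5 h4

/-- **the bound** -/
theorem thr_bound (r : ℕ) (hr : 2 ≤ r) (N Q : ℕ) (hN : 1 ≤ N) (hQ : 1 ≤ Q) (V : Type)
    [Fintype V] (G : SimpleGraph V) (hG : (completeBipartiteGraph (Fin r) (Fin r)).Free G)
    (hrep : ThrRep G N Q) :
    (Nat.card G.edgeSet : ℝ) ≤ 2 * cD r * (Fintype.card V : ℝ) ^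
      (2 - 1 / (r : ℝ) - 1 / (800 * (r + N * Real.logb 2 (2 * N * Q)))) := by
  classical
  have hcD := cD_pos r (by omega)
  obtain ⟨δ, hδ⟩ : ∃ δ : ℝ, δ = 1 / (800 * (r + N * Real.logb 2 (2 * N * Q))) := ⟨_, rfl⟩
  rw [← hδ]
  rcases isEmpty_or_nonempty V with hV | hV
  · have : IsEmpty G.edgeSet := by
      constructor
      rintro ⟨e, _⟩
      induction e with
      | _ x y => exact hV.elim x
    rw [Nat.card_of_isEmpty]
    simp only [Nat.cast_zero]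
    positivity
  obtain ⟨γ, hγ⟩ : ∃ γ : ℝ, γ = 2 - 1 / (r : ℝ) - δ := ⟨_, rfl⟩
  obtain ⟨U, hUm, hmax⟩ := exists_max_image
    ((univ : Finset V).powerset.filter fun U => U.Nonempty)
    (fun U => ed G U U / (U.card : ℝ) ^ γ)
    ⟨univ, by simp [univ_nonempty]⟩
  have hUn : U.Nonempty := (mem_filter.1 hUm).2
  have hpos : ∀ W : Finset V, W.Nonempty → 0 < (W.card : ℝ) ^ γ := by
    intro W hW
    exact Real.rpow_pos_of_pos (by exact_mod_cast card_pos.2 hW) _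
  obtain ⟨Φ, hΦ⟩ : ∃ Φ : ℝ, Φ = ed G U U / (U.card : ℝ) ^ γ := ⟨_, rfl⟩
  have hΦ0 : 0 ≤ Φ := by
    rw [hΦ]; exact div_nonneg (ed_nonneg G _ _) (hpos U hUn).le
  have hUe : ed G U U = Φ * (U.card : ℝ) ^ γ := by
    rw [hΦ, div_mul_cancel₀ _ (hpos U hUn).ne']
  have hher : ∀ W : Finset V, ed G W W ≤ Φ * (W.card : ℝ) ^ γ := by
    intro W
    rcases W.eq_empty_or_nonempty with rfl | hW
    · have : ed G (∅ : Finset V) ∅ = 0 := sum_empty
      rw [this]
      exact mul_nonneg hΦ0 (Real.rpow_nonneg (Nat.cast_nonneg _) _)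
    · have := hmax W (mem_filter.2 ⟨by simp, hW⟩)
      rw [← hΦ, div_le_iff₀ (hpos W hW)] at this
      exact this
  have hΦ4 : Φ ≤ 4 * cD r := by
    rcases hΦ0.eq_or_lt with h0 | h0
    · rw [← h0]; positivity
    rw [hγ] at hUe hher
    rcases Nat.lt_or_ge U.card ((240 * N * Q ^ 2) ^ 3) with hs | hs
    · exact small_case G r hr hG U hUn N Q hN hQ Φ δ h0 hδ hUe hs
    · exact main_case G r hr hG U N Q hN hQ hrep Φ δ h0 hδ hUe hher hs
  have h1 := hher univ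
  have h2 : ed G (univ : Finset V) univ = 2 * (Nat.card G.edgeSet : ℝ) := by
    rw [two_edges]
    unfold ed Pool.Agent.N376.MP.adj
    rfl
  rw [h2, card_univ] at h1
  rw [← hγ]
  have h3 : Φ * (Fintype.card V : ℝ) ^ γ ≤ 4 * cD r * (Fintype.card V : ℝ) ^ γ :=
    mul_le_mul_of_nonneg_right hΦ4 (by positivity)
  linarith

end Pool.Agent.T9h97.RC
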